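import Mathlib

/-!
# Bipartite orientations without directed four-cycles
-/

set_option autoImplicit false
open Finset
open scoped Classical

namespace Pool.Agent.Zk14.OW

theorem top_set {β : Type} (B : Finset β) (f : β → ℕ) (m : ℕ) (hm : m ≤ B.card) :
    ∃ M ⊆ B, M.card = m ∧ ∀ b ∈ M, ∀ b' ∈ B \ M, f b' ≤ f b := by
  induction m with
  | zero => exact ⟨∅, empty_subset _, card_empty, by simp⟩
  | succ m ih =>
    obtain ⟨M, hMB, hMc, hM⟩ := ih (by omega)
    have hne : (B \ M).Nonempty := by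
      rw [← card_pos, card_sdiff_of_subset hMB]
      omega
    obtain ⟨b, hb, hmax⟩ := (B \ M).exists_max_image f hne
    rw [mem_sdiff] at hb
    refine ⟨insert b M, ?_, ?_, ?_⟩
    · intro x hx
      rcases mem_insert.1 hx with rfl | hx
      · exact hb.1
      · exact hMB hx
    · rw [card_insert_of_notMem hb.2, hMc]
    · intro x hx y hy
      rw [mem_sdiff, mem_insert, not_or] at hy
      have hy' : y ∈ B \ M := mem_sdiff.2 ⟨hy.1, hy.2.2⟩
      rcases mem_insert.1 hx with rfl | hx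
      · exact hmax y hy'
      · exact hM x hx y hy'

/-- the positive part -/
noncomputable def pos (x : ℝ) : ℝ := max 0 x

theorem pos_sq_ge {x y : ℝ} (hx : 0 ≤ x) (hy : 0 ≤ y) : x ^ 2 ≤ pos (x - y) ^ 2 + 2 * (x * y) := by
  unfold pos
  rcases le_total y x with h | h
  · rw [max_eq_right (by linarith)]
    nlinarith
  · rw [max_eq_left (by linarith)]
    nlinarith

/-- the number of the undecided pairs at `b` -/
noncomputable def star {α β : Type} (A : Finset α) (P Q : α → β → Prop) (b : β) : ℕ :=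
  (A.filter fun a => ¬ P a b ∧ ¬ Q a b).card

theorem inv_le {α β : Type} (A : Finset α) (P Q : α → β → Prop)
    (hPQ : ∀ a b, P a b → ¬ Q a b) {b b' : β}
    (hC : ∀ a ∈ A, ∀ a' ∈ A, ¬ (P a b ∧ Q a' b ∧ P a' b' ∧ Q a b'))
    (hf : (A.filter fun a => ¬ Q a b').card ≤ (A.filter fun a => ¬ Q a b).card) :
    (A.filter fun a => ¬ P a b ∧ P a b').card ≤ 2 * star A P Q b := by
  have h1 : (A.filter fun a => ¬ P a b ∧ P a b').card ≤
      (A.filter fun a => Q a b ∧ P a b').card + star A P Q b := by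
    unfold star
    refine le_trans (card_le_card ?_) (card_union_le _ _)
    intro a ha
    rw [mem_filter] at ha
    rw [mem_union, mem_filter, mem_filter]
    by_cases h : Q a b
    · exact Or.inl ⟨ha.1, h, ha.2.2⟩
    · exact Or.inr ⟨ha.1, ha.2.1, h⟩
  have h2 : (A.filter fun a => Q a b ∧ P a b').card ≤ star A P Q b := by
    rcases (A.filter fun a => Q a b ∧ P a b').eq_empty_or_nonempty with h | h
    · rw [h, card_empty]
      exact Nat.zero_le _
    obtain ⟨a0, ha0⟩ := h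
    rw [mem_filter] at ha0
    have hno : ∀ a ∈ A, ¬ (P a b ∧ Q a b') := fun a ha h =>
      hC a ha a0 ha0.1 ⟨h.1, ha0.2.1, ha0.2.2, h.2⟩
    -- the zeros
    obtain ⟨Z, hZ⟩ : ∃ Z, Z = A.filter fun a => Q a b := ⟨_, rfl⟩
    obtain ⟨Z', hZ'⟩ : ∃ Z', Z' = A.filter fun a => Q a b' := ⟨_, rfl⟩
    have hc1 : Z.card + (A.filter fun a => ¬ Q a b).card = A.card := by
      rw [hZ]
      exact card_filter_add_card_filter_not (s := A) (fun a => Q a b)
    have hc2 : Z'.card + (A.filter fun a => ¬ Q a b').card = A.card := by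
      rw [hZ']
      exact card_filter_add_card_filter_not (s := A) (fun a => Q a b')
    have hc3 : (Z \ Z').card + Z'.card = (Z' \ Z).card + Z.card := by
      rw [card_sdiff_add_card, card_sdiff_add_card, union_comm]
    have h3 : (A.filter fun a => Q a b ∧ P a b').card ≤ (Z \ Z').card := by
      apply card_le_card
      intro a ha
      rw [mem_filter] at ha
      rw [mem_sdiff, hZ, hZ', mem_filter, mem_filter]
      exact ⟨⟨ha.1, ha.2.1⟩, fun h => hPQ a b' ha.2.2 h.2⟩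
    have h4 : (Z' \ Z).card ≤ star A P Q b := by
      unfold star
      apply card_le_card
      intro a ha
      rw [mem_sdiff, hZ, hZ', mem_filter, mem_filter] at ha
      rw [mem_filter]
      exact ⟨ha.1.1, fun h => hno a ha.1.1 ⟨h, ha.1.2⟩, fun h => ha.2 ⟨ha.1.1, h⟩⟩
    omega
  omega

theorem half {α β : Type} (A : Finset α) (B M : Finset β) (P Q : α → β → Prop)
    (hPQ : ∀ a b, P a b → ¬ Q a b)
    (hC : ∀ a ∈ A, ∀ a' ∈ A, ∀ b ∈ B, ∀ b' ∈ B, ¬ (P a b ∧ Q a' b ∧ P a' b' ∧ Q a b'))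
    (hMB : M ⊆ B)
    (hM : ∀ b ∈ M, ∀ b' ∈ B \ M, (A.filter fun a => ¬ Q a b').card ≤
      (A.filter fun a => ¬ Q a b).card)
    (L : Finset α) (hL : L ⊆ A) :
    ∑ a ∈ L, ((M.filter fun b => ¬ P a b).card : ℝ) ^ 2 ≤
      ∑ a ∈ L, pos (((B.filter fun b => ¬ P a b).card : ℝ) - (B.card - M.card)) ^ 2 +
      4 * (∑ b ∈ B, (star A P Q b : ℝ)) * B.card := by
  -- pointwise
  have h1 : ∀ a, ((M.filter fun b => ¬ P a b).card : ℝ) ^ 2 ≤
      pos (((B.filter fun b => ¬ P a b).card : ℝ) - (B.card - M.card)) ^ 2 +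
      2 * (((M.filter fun b => ¬ P a b).card : ℝ) * (((B \ M).filter fun b => P a b).card : ℝ)) := by
    intro a
    have h2 := pos_sq_ge (x := ((M.filter fun b => ¬ P a b).card : ℝ))
      (y := (((B \ M).filter fun b => P a b).card : ℝ)) (Nat.cast_nonneg _) (Nat.cast_nonneg _)
    have h3 : ((B.filter fun b => ¬ P a b).card : ℝ) - (B.card - M.card) =
        ((M.filter fun b => ¬ P a b).card : ℝ) - (((B \ M).filter fun b => P a b).card : ℝ) := by
      have h4 : (B.filter fun b => ¬ P a b).card = (M.filter fun b => ¬ P a b).card +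
          ((B \ M).filter fun b => ¬ P a b).card := by
        rw [← card_union_of_disjoint, ← filter_union, union_sdiff_of_subset hMB]
        exact disjoint_filter_filter disjoint_sdiff
      have h5 : ((B \ M).filter fun b => P a b).card + ((B \ M).filter fun b => ¬ P a b).card =
          (B \ M).card := card_filter_add_card_filter_not (s := B \ M) (fun b => P a b)
      have h6 : ((B \ M).card : ℝ) = B.card - M.card := by
        rw [card_sdiff_of_subset hMB, Nat.cast_sub (card_le_card hMB)]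
      have h7 : (((B \ M).filter fun b => P a b).card : ℝ) +
          (((B \ M).filter fun b => ¬ P a b).card : ℝ) = B.card - M.card := by
        rw [← h6]
        exact_mod_cast h5
      rw [h4]
      push_cast
      linarith
    rw [h3]
    exact h2
  -- the mixed terms
  have h2 : ∑ a ∈ L, ((M.filter fun b => ¬ P a b).card : ℝ) *
      (((B \ M).filter fun b => P a b).card : ℝ) ≤
      2 * (∑ b ∈ B, (star A P Q b : ℝ)) * B.card := by
    have h3 : ∑ a ∈ L, ((M.filter fun b => ¬ P a b).card : ℝ) *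
        (((B \ M).filter fun b => P a b).card : ℝ) ≤
        ∑ a ∈ A, ((M.filter fun b => ¬ P a b).card : ℝ) *
        (((B \ M).filter fun b => P a b).card : ℝ) :=
      sum_le_sum_of_subset_of_nonneg hL fun _ _ _ => mul_nonneg (Nat.cast_nonneg _)
        (Nat.cast_nonneg _)
    have h4 : ∑ a ∈ A, ((M.filter fun b => ¬ P a b).card : ℝ) *
        (((B \ M).filter fun b => P a b).card : ℝ) =
        ∑ b ∈ M, ∑ b' ∈ B \ M, ((A.filter fun a => ¬ P a b ∧ P a b').card : ℝ) := by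
      have e1 : ∀ a, ((M.filter fun b => ¬ P a b).card : ℝ) *
          (((B \ M).filter fun b => P a b).card : ℝ) =
          ∑ b ∈ M, ∑ b' ∈ B \ M, if ¬ P a b ∧ P a b' then (1 : ℝ) else 0 := by
        intro a
        rw [card_filter, card_filter]
        push_cast
        rw [sum_mul_sum]
        refine sum_congr rfl fun b _ => sum_congr rfl fun b' _ => ?_
        by_cases h : P a b
        · have hn : ¬ (¬ P a b ∧ P a b') := fun h' => h'.1 h
          rw [if_neg (not_not.2 h), if_neg hn, zero_mul]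
        · by_cases h' : P a b'
          · rw [if_pos h, if_pos h', if_pos ⟨h, h'⟩, mul_one]
          · have hn : ¬ (¬ P a b ∧ P a b') := fun h'' => h' h''.2
            rw [if_pos h, if_neg h', if_neg hn, mul_zero]
      rw [sum_congr rfl fun a _ => e1 a, sum_comm]
      refine sum_congr rfl fun b _ => ?_
      rw [sum_comm]
      refine sum_congr rfl fun b' _ => ?_
      rw [card_filter]
      push_cast
      rfl
    have h5 : ∑ b ∈ M, ∑ b' ∈ B \ M, ((A.filter fun a => ¬ P a b ∧ P a b').card : ℝ) ≤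
        ∑ b ∈ M, (B.card : ℝ) * (2 * (star A P Q b : ℝ)) := by
      refine sum_le_sum fun b hb => ?_
      calc ∑ b' ∈ B \ M, ((A.filter fun a => ¬ P a b ∧ P a b').card : ℝ) ≤
          ∑ b' ∈ B \ M, (2 * (star A P Q b : ℝ)) := by
            refine sum_le_sum fun b' hb' => ?_
            have := inv_le A P Q hPQ (b := b) (b' := b')
              (fun a ha a' ha' => hC a ha a' ha' b (hMB hb) b' (mem_sdiff.1 hb').1) (hM b hb b' hb')
            exact_mod_cast this
        _ = ((B \ M).card : ℝ) * (2 * (star A P Q b : ℝ)) := by rw [sum_const, nsmul_eq_mul]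
        _ ≤ (B.card : ℝ) * (2 * (star A P Q b : ℝ)) := by
            apply mul_le_mul_of_nonneg_right _ (by positivity)
            exact_mod_cast card_le_card sdiff_subset
    have h6 : ∑ b ∈ M, (B.card : ℝ) * (2 * (star A P Q b : ℝ)) ≤
        ∑ b ∈ B, (B.card : ℝ) * (2 * (star A P Q b : ℝ)) :=
      sum_le_sum_of_subset_of_nonneg hMB fun _ _ _ => by positivity
    have h7 : ∑ b ∈ B, (B.card : ℝ) * (2 * (star A P Q b : ℝ)) =
        2 * (∑ b ∈ B, (star A P Q b : ℝ)) * B.card := by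
      rw [← mul_sum, ← mul_sum]
      ring
    rw [← h7]
    exact h3.trans (le_of_eq h4 |>.trans (h5.trans h6))
  calc ∑ a ∈ L, ((M.filter fun b => ¬ P a b).card : ℝ) ^ 2 ≤
      ∑ a ∈ L, (pos (((B.filter fun b => ¬ P a b).card : ℝ) - (B.card - M.card)) ^ 2 +
      2 * (((M.filter fun b => ¬ P a b).card : ℝ) *
        (((B \ M).filter fun b => P a b).card : ℝ))) := sum_le_sum fun a _ => h1 a
    _ = ∑ a ∈ L, pos (((B.filter fun b => ¬ P a b).card : ℝ) - (B.card - M.card)) ^ 2 +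
      2 * ∑ a ∈ L, ((M.filter fun b => ¬ P a b).card : ℝ) *
        (((B \ M).filter fun b => P a b).card : ℝ) := by
        rw [sum_add_distrib, ← mul_sum]
    _ ≤ _ := by linarith

/-- **Bipartite orientations without directed four-cycles**, with some undecided pairs. -/
theorem nested {α β : Type} (A : Finset α) (B : Finset β) (P Q : α → β → Prop)
    (hPQ : ∀ a b, P a b → ¬ Q a b)
    (hC : ∀ a ∈ A, ∀ a' ∈ A, ∀ b ∈ B, ∀ b' ∈ B, ¬ (P a b ∧ Q a' b ∧ P a' b' ∧ Q a b'))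
    (m : ℕ) (hA : m ≤ A.card) (hB : m ≤ B.card) :
    (m : ℝ) ^ 3 / 2 ≤
      ∑ a ∈ A, pos (((B.filter fun b => ¬ P a b).card : ℝ) - (B.card - m)) ^ 2 +
      ∑ b ∈ B, pos (((A.filter fun a => ¬ Q a b).card : ℝ) - (A.card - m)) ^ 2 +
      4 * (∑ a ∈ A, ∑ b ∈ B, if ¬ P a b ∧ ¬ Q a b then (1 : ℝ) else 0) * (A.card + B.card) := by
  obtain ⟨σ, hσ⟩ : ∃ σ : ℝ, σ = ∑ a ∈ A, ∑ b ∈ B, if ¬ P a b ∧ ¬ Q a b then (1 : ℝ) else 0 :=
    ⟨_, rfl⟩
  have hσ0 : 0 ≤ σ := by
    rw [hσ]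
    exact sum_nonneg fun _ _ => sum_nonneg fun _ _ => by split_ifs <;> norm_num
  have hσ1 : ∑ b ∈ B, (star A P Q b : ℝ) = σ := by
    rw [hσ, sum_comm]
    refine sum_congr rfl fun b _ => ?_
    unfold star
    rw [card_filter]
    push_cast
    rfl
  have hσ2 : ∑ a ∈ A, (star B (fun b a => Q a b) (fun b a => P a b) a : ℝ) = σ := by
    rw [hσ]
    refine sum_congr rfl fun a _ => ?_
    unfold star
    rw [card_filter]
    push_cast
    refine sum_congr rfl fun b _ => ?_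
    by_cases h : ¬ P a b ∧ ¬ Q a b
    · rw [if_pos h, if_pos ⟨h.2, h.1⟩]
    · rw [if_neg h, if_neg (fun h' => h ⟨h'.2, h'.1⟩)]
  rw [← hσ]
  rcases Nat.eq_zero_or_pos m with rfl | hm
  · have h1 : 0 ≤ ∑ a ∈ A, pos (((B.filter fun b => ¬ P a b).card : ℝ) - (B.card - (0 : ℕ))) ^ 2 +
      ∑ b ∈ B, pos (((A.filter fun a => ¬ Q a b).card : ℝ) - (A.card - (0 : ℕ))) ^ 2 :=
      add_nonneg (sum_nonneg fun _ _ => sq_nonneg _) (sum_nonneg fun _ _ => sq_nonneg _)
    have h2 : 0 ≤ 4 * σ * ((A.card : ℝ) + B.card) := by positivity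
    have h3 : ((0 : ℕ) : ℝ) ^ 3 / 2 = 0 := by norm_num
    rw [h3]
    linarith
  obtain ⟨M, hMB, hMc, hM⟩ := top_set B (fun b => (A.filter fun a => ¬ Q a b).card) m hB
  obtain ⟨L, hLA, hLc, hL⟩ := top_set A (fun a => (B.filter fun b => ¬ P a b).card) m hA
  have h1 := half A B M P Q hPQ hC hMB hM L hLA
  have h2 := half B A L (fun b a => Q a b) (fun b a => P a b) (fun b a h h' => hPQ a b h' h)
    (fun b hb b' hb' a ha a' ha' h => hC a' ha' a ha b hb b' hb' ⟨h.2.2.2, h.1, h.2.1, h.2.2.1⟩)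
    hLA hL M hMB
  rw [hσ1, hMc] at h1
  rw [hσ2, hLc] at h2
  have hm0 : (0 : ℝ) < m := by exact_mod_cast hm
  obtain ⟨X, hX⟩ : ∃ X : ℝ, X = ∑ a ∈ L, ((M.filter fun b => ¬ P a b).card : ℝ) := ⟨_, rfl⟩
  obtain ⟨Y, hY⟩ : ∃ Y : ℝ, Y = ∑ b ∈ M, ((L.filter fun a => ¬ Q a b).card : ℝ) := ⟨_, rfl⟩
  have hX0 : 0 ≤ X := by rw [hX]; exact sum_nonneg fun _ _ => Nat.cast_nonneg _
  have hY0 : 0 ≤ Y := by rw [hY]; exact sum_nonneg fun _ _ => Nat.cast_nonneg _
  have hXY : (m : ℝ) ^ 2 ≤ X + Y := by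
    have e1 : ∀ a, ((M.filter fun b => ¬ P a b).card : ℝ) =
        ∑ b ∈ M, if ¬ P a b then (1 : ℝ) else 0 := by
      intro a
      rw [card_filter]
      push_cast
      rfl
    have e2 : ∀ b, ((L.filter fun a => ¬ Q a b).card : ℝ) =
        ∑ a ∈ L, if ¬ Q a b then (1 : ℝ) else 0 := by
      intro b
      rw [card_filter]
      push_cast
      rfl
    have e3 : X + Y = ∑ b ∈ M, ∑ a ∈ L, ((if ¬ P a b then (1 : ℝ) else 0) +
        (if ¬ Q a b then (1 : ℝ) else 0)) := by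
      rw [hX, hY, sum_congr rfl fun a _ => e1 a, sum_congr rfl fun b _ => e2 b, sum_comm,
        ← sum_add_distrib]
      refine sum_congr rfl fun b _ => ?_
      rw [← sum_add_distrib]
    rw [e3]
    calc (m : ℝ) ^ 2 = ∑ b ∈ M, ∑ a ∈ L, (1 : ℝ) := by
          simp only [sum_const, nsmul_eq_mul, mul_one, hLc, hMc]
          ring
      _ ≤ _ := by
          refine sum_le_sum fun b _ => sum_le_sum fun a _ => ?_
          by_cases h : P a b
          · rw [if_neg (not_not.2 h), if_pos (hPQ a b h)]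
            norm_num
          · rw [if_pos h]
            split_ifs <;> norm_num
  have hX2 : X ^ 2 ≤ m * ∑ a ∈ L, ((M.filter fun b => ¬ P a b).card : ℝ) ^ 2 := by
    rw [hX, ← hLc]; exact sq_sum_le_card_mul_sum_sq
  have hY2 : Y ^ 2 ≤ m * ∑ b ∈ M, ((L.filter fun a => ¬ Q a b).card : ℝ) ^ 2 := by
    rw [hY, ← hMc]; exact sq_sum_le_card_mul_sum_sq
  have h3 : ∑ a ∈ L, pos (((B.filter fun b => ¬ P a b).card : ℝ) - (B.card - m)) ^ 2 ≤
      ∑ a ∈ A, pos (((B.filter fun b => ¬ P a b).card : ℝ) - (B.card - m)) ^ 2 :=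
    sum_le_sum_of_subset_of_nonneg hLA fun _ _ _ => sq_nonneg _
  have h4 : ∑ b ∈ M, pos (((A.filter fun a => ¬ Q a b).card : ℝ) - (A.card - m)) ^ 2 ≤
      ∑ b ∈ B, pos (((A.filter fun a => ¬ Q a b).card : ℝ) - (A.card - m)) ^ 2 :=
    sum_le_sum_of_subset_of_nonneg hMB fun _ _ _ => sq_nonneg _
  have h5 : (m : ℝ) ^ 4 / 2 ≤ X ^ 2 + Y ^ 2 := by
    have h6 : (X + Y) ^ 2 ≤ 2 * (X ^ 2 + Y ^ 2) := by nlinarith [sq_nonneg (X - Y)]
    have h7 : ((m : ℝ) ^ 2) ^ 2 ≤ (X + Y) ^ 2 := pow_le_pow_left₀ (by positivity) hXY 2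
    have h8 : ((m : ℝ) ^ 2) ^ 2 = (m : ℝ) ^ 4 := by ring
    linarith
  have hfin : (m : ℝ) * ((m : ℝ) ^ 3 / 2) ≤
      m * (∑ a ∈ L, ((M.filter fun b => ¬ P a b).card : ℝ) ^ 2 +
      ∑ b ∈ M, ((L.filter fun a => ¬ Q a b).card : ℝ) ^ 2) := by
    have h8 : (m : ℝ) * ((m : ℝ) ^ 3 / 2) = (m : ℝ) ^ 4 / 2 := by ring
    rw [h8, mul_add]
    linarith
  have h9 := le_of_mul_le_mul_left hfin hm0
  have h10 : 4 * σ * ((A.card : ℝ) + B.card) = 4 * σ * B.card + 4 * σ * A.card := by ring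
  rw [h10]
  linarith

/-- the sizes of the small classes -/
theorem psi_le {ι : Type} (J : Finset ι) (s : ι → ℝ) {z b : ℝ} (hs0 : ∀ i ∈ J, 0 ≤ s i)
    (hsb : ∀ i ∈ J, s i ≤ b) (hb : b ≤ z) :
    (∑ i ∈ J, s i) * ((z - b) * (2 * z - b)) ≤ ∑ i ∈ J, s i * (s i - z) * (s i - 2 * z) := by
  rw [sum_mul]
  refine sum_le_sum fun i hi => ?_
  have h1 := hs0 i hi
  have h2 := hsb i hi
  have h3 : (z - b) * (2 * z - b) ≤ (s i - z) * (s i - 2 * z) := by nlinarith
  calc s i * ((z - b) * (2 * z - b)) ≤ s i * ((s i - z) * (s i - 2 * z)) :=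
        mul_le_mul_of_nonneg_left h3 h1
    _ = _ := by ring

/-- one large class -/
theorem psi_one {ι : Type} (J : Finset ι) (s : ι → ℝ) {z ρ : ℝ} (hs0 : ∀ i ∈ J, 0 ≤ s i)
    (hsz : ∀ i ∈ J, s i ≤ z) (hρ : ∑ i ∈ J, s i = ρ) (h1 : z < ρ) (h2 : ρ < 2 * z) :
    (3 * z - ρ) * (2 * z - ρ) * (ρ - z) ≤ ∑ i ∈ J, s i * (s i - z) * (s i - 2 * z) := by
  have hz : 0 < z := by linarith
  have hne : J.Nonempty := by
    rw [nonempty_iff_ne_empty]
    rintro rfl
    rw [sum_empty] at hρ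
    linarith
  obtain ⟨i, hi, hmax⟩ := J.exists_max_image s hne
  have e1 : ∀ f : ι → ℝ, ∑ j ∈ J, f j = f i + ∑ j ∈ J.erase i, f j := fun f =>
    (add_sum_erase J f hi).symm
  obtain ⟨a, ha⟩ : ∃ a, a = s i := ⟨_, rfl⟩
  have haz : a ≤ z := by rw [ha]; exact hsz i hi
  have ha0 : 0 ≤ a := by rw [ha]; exact hs0 i hi
  have hrest : ∑ j ∈ J.erase i, s j = ρ - a := by
    rw [e1 s] at hρ
    linarith
  rcases le_total (ρ - a) a with h3 | h3
  · have h4 : ∀ j ∈ J.erase i, s j ≤ ρ - a := by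
      intro j hj
      rw [← hrest]
      exact single_le_sum (f := s) (fun k hk => hs0 k (mem_of_mem_erase hk)) hj
    have h5 := psi_le (J.erase i) s (z := z) (b := ρ - a)
      (fun j hj => hs0 j (mem_of_mem_erase hj)) h4 (by linarith)
    rw [hrest] at h5
    rw [e1 (fun j => s j * (s j - z) * (s j - 2 * z)), ← ha]
    have h6 : 0 ≤ 3 * (2 * z - ρ) * ((z - a) * (a + z - ρ)) := by
      apply mul_nonneg (by linarith)
      apply mul_nonneg <;> linarith
    nlinarith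
  · have h4 : ∀ j ∈ J, s j ≤ a := fun j hj => by rw [ha]; exact hmax j hj
    have h5 := psi_le J s (z := z) (b := a) hs0 h4 haz
    rw [hρ] at h5
    refine le_trans ?_ h5
    have h6 : (z - ρ / 2) * (2 * z - ρ / 2) ≤ (z - a) * (2 * z - a) := by nlinarith
    have h7 : ρ * ((z - ρ / 2) * (2 * z - ρ / 2)) ≤ ρ * ((z - a) * (2 * z - a)) :=
      mul_le_mul_of_nonneg_left h6 (by linarith)
    refine le_trans ?_ h7
    have h8 : ρ * ((z - ρ / 2) * (2 * z - ρ / 2)) - (3 * z - ρ) * (2 * z - ρ) * (ρ - z) =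
        3 / 4 * (2 * z - ρ) * (ρ - 2 * z) ^ 2 := by ring
    have h9 : 0 ≤ 3 / 4 * (2 * z - ρ) * (ρ - 2 * z) ^ 2 := by
      apply mul_nonneg (by linarith) (sq_nonneg _)
    linarith

end Pool.Agent.Zk14.OW
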