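import Pool.Agent.Zk14.OW.Gen
import Pool.Agent.Zk14.OW.Nest

/-!
# Large classes
-/

set_option autoImplicit false
open Finset
open scoped Classical

namespace Pool.Agent.Zk14.OW

variable {n r : ℕ} {T : Finset (Finset (Fin n))} {c : Fin n → Fin r}

theorem pos_sq_le {x y : ℝ} (h : x ≤ y) : pos x ^ 2 ≤ y ^ 2 := by
  unfold pos
  rcases le_total x 0 with h0 | h0
  · rw [max_eq_left h0]
    nlinarith [sq_nonneg y]
  · rw [max_eq_right h0]
    exact pow_le_pow_left₀ h0 h 2

theorem no_four_cycle (hT : Cov T) {a a' b b' : Fin n} (ha : c a = c a') (hb : c b = c b')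
    (h : arc T c a b ∧ arc T c b a' ∧ arc T c a' b' ∧ arc T c b' a) : False := by
  obtain ⟨h1, h5, h3, h6⟩ := h
  have hne : a ≠ a' := fun h => arc_asymm h1 (h ▸ h5)
  have hne' : b ≠ b' := fun h => arc_asymm h1 (h ▸ h6)
  have hxa : ∀ x y : Fin n, c x ≠ c y → x ≠ y := fun x y h h' => h (h' ▸ rfl)
  refine not_uncovered hT hne (hxa _ _ h1.1) (hxa _ _ (Ne.symm h6.1)) (hxa _ _ (Ne.symm h5.1))
    (hxa _ _ h3.1) hne' (arc_not h1 (Ne.symm hne) ha.symm) ?_ ?_ ?_
  · have := arc_not h3 hne ha
    have e : ({a', a, b'} : Finset (Fin n)) = {a, a', b'} := by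
      ext w; simp only [mem_insert, mem_singleton]; tauto
    rwa [e] at this
  · have := arc_not h6 hne' hb
    have e : ({b', b, a} : Finset (Fin n)) = {a, b, b'} := by
      ext w; simp only [mem_insert, mem_singleton]; tauto
    rwa [e] at this
  · have := arc_not h5 (Ne.symm hne') hb.symm
    have e : ({b, b', a'} : Finset (Fin n)) = {a', b, b'} := by
      ext w; simp only [mem_insert, mem_singleton]; tauto
    rwa [e] at this

/-- the degree of a vertex of the class `i` is at most its number of arcs to the class `j` and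
the number of the vertices of the other classes -/
theorem deg_le_two {i j : Fin r} (hij : i ≠ j) {x : Fin n} (hx : c x = i) :
    deg T c x ≤ (((univ.filter fun y => c y = j).filter fun y => arc T c x y).card : ℝ) +
      (n - size c i - size c j) := by
  have h1 : ∀ y, ind (arc T c x y) ≤ ind (c y = j ∧ arc T c x y) +
      (1 - ind (c y = i) - ind (c y = j)) := by
    intro y
    by_cases h : arc T c x y
    · have hyi : ¬ c y = i := fun h' => h.1 (hx.trans h'.symm)
      rw [ind_true h, ind_false hyi]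
      by_cases hj : c y = j
      · rw [ind_true ⟨hj, h⟩, ind_true hj]; norm_num
      · rw [ind_false (fun h => hj h.1), ind_false hj]; norm_num
    · rw [ind_false h, ind_false (fun h' => h h'.2)]
      by_cases hi : c y = i
      · have hj : ¬ c y = j := fun h' => hij (hi.symm.trans h')
        rw [ind_true hi, ind_false hj]; norm_num
      · rw [ind_false hi]
        have := ind_le_one (c y = j)
        linarith
  have h2 : deg T c x ≤ ∑ y, (ind (c y = j ∧ arc T c x y) +
      (1 - ind (c y = i) - ind (c y = j))) := sum_le_sum fun y _ => h1 y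
  refine h2.trans (le_of_eq ?_)
  rw [sum_add_distrib, sum_sub_distrib, sum_sub_distrib, sum_ind, filter_filter]
  have h3 : ∑ _x : Fin n, (1 : ℝ) = n := by simp
  rw [h3]
  unfold size
  rfl

/-- the undecided pairs between two classes -/
theorem undecided_le {i j : Fin r} (hij : i ≠ j) :
    2 * ∑ a ∈ univ.filter (fun x => c x = i), ∑ b ∈ univ.filter (fun x => c x = j),
      (if ¬ arc T c a b ∧ ¬ arc T c b a then (1 : ℝ) else 0) ≤ badO T c := by
  obtain ⟨f, hf⟩ : ∃ f : Fin n → Fin n → ℝ, f = fun x y =>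
    ind (c x ≠ c y ∧ Mate T c x y ∧ Mate T c y x) := ⟨_, rfl⟩
  have hfs : ∀ x y, f x y = f y x := by
    intro x y
    rw [hf]
    exact ind_congr ⟨fun h => ⟨Ne.symm h.1, h.2.2, h.2.1⟩, fun h => ⟨Ne.symm h.1, h.2.2, h.2.1⟩⟩
  have hf0 : ∀ x y, 0 ≤ f x y := fun x y => by rw [hf]; exact ind_nonneg _
  have h1 : ∀ a ∈ univ.filter (fun x => c x = i), ∀ b ∈ univ.filter (fun x => c x = j),
      (if ¬ arc T c a b ∧ ¬ arc T c b a then (1 : ℝ) else 0) ≤ f a b := by
    intro a ha b hb
    rw [mem_filter] at ha hb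
    have hab : c a ≠ c b := by rw [ha.2, hb.2]; exact hij
    split_ifs with h
    · have h2 : Mate T c a b ∧ Mate T c b a := by
        by_contra h3
        rcases arc_or hab h3 with h4 | h4
        · exact h.1 h4
        · exact h.2 h4
      rw [hf]
      dsimp only
      rw [ind_true ⟨hab, h2.1, h2.2⟩]
    · exact hf0 a b
  obtain ⟨S, hS⟩ : ∃ S, S = ∑ a ∈ univ.filter (fun x => c x = i),
    ∑ b ∈ univ.filter (fun x => c x = j), f a b := ⟨_, rfl⟩
  have h2 : ∑ a ∈ univ.filter (fun x => c x = i), ∑ b ∈ univ.filter (fun x => c x = j),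
      (if ¬ arc T c a b ∧ ¬ arc T c b a then (1 : ℝ) else 0) ≤ S := by
    rw [hS]
    exact sum_le_sum fun a ha => sum_le_sum fun b hb => h1 a ha b hb
  have h3 : 2 * S ≤ badO T c := by
    have h4 : badO T c = ∑ x, ∑ y, f x y := by rw [hf]; rfl
    have h5 : S = ∑ x, ∑ y, ind (c x = i) * ind (c y = j) * f x y := by
      rw [hS, sum_filter]
      refine sum_congr rfl fun x _ => ?_
      by_cases hx : c x = i
      · rw [if_pos hx, sum_filter]
        refine sum_congr rfl fun y _ => ?_
        by_cases hy : c y = j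
        · rw [if_pos hy, ind_true hx, ind_true hy]; ring
        · rw [if_neg hy, ind_false hy]; ring
      · rw [if_neg hx]
        symm
        exact sum_eq_zero fun y _ => by rw [ind_false hx]; ring
    have h6 : S = ∑ x, ∑ y, ind (c y = i) * ind (c x = j) * f x y := by
      rw [h5, sum_comm]
      exact sum_congr rfl fun x _ => sum_congr rfl fun y _ => by rw [hfs]
    calc 2 * S = ∑ x, ∑ y, (ind (c x = i) * ind (c y = j) * f x y +
          ind (c y = i) * ind (c x = j) * f x y) := by
          simp only [sum_add_distrib]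
          rw [← h5, ← h6]
          ring
      _ ≤ ∑ x, ∑ y, f x y := by
          refine sum_le_sum fun x _ => sum_le_sum fun y _ => ?_
          have h7 := hf0 x y
          by_cases hx : c x = i
          · have hx' : ¬ c x = j := fun h => hij (hx.symm.trans h)
            rw [ind_true hx, ind_false hx']
            have := ind_le_one (c y = j)
            nlinarith
          · rw [ind_false hx]
            have h8 := ind_le_one (c y = i)
            have h9 := ind_le_one (c x = j)
            have h10 := ind_nonneg (c y = i)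
            have h11 := ind_nonneg (c x = j)
            have h12 : ind (c y = i) * ind (c x = j) ≤ 1 := by nlinarith
            nlinarith
      _ = badO T c := h4.symm
  linarith

/-- two large classes -/
theorem two_dev (hT : Cov T) {i j : Fin r} (hij : i ≠ j)
    (hi : (n : ℝ) < 3 * size c i) (hj : (n : ℝ) < 3 * size c j)
    (hsum : size c i + size c j ≤ n) :
    (size c i + size c j - 2 * n / 3) ^ 3 / 2 - (n : ℝ) ^ 2 / 6 - 2 * n * badO T c ≤
      dev T c i + dev T c j := by
  obtain ⟨β, hβ⟩ : ∃ β, β = size c i + size c j - 2 * n / 3 := ⟨_, rfl⟩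
  have hβ0 : 0 ≤ β := by rw [hβ]; linarith
  obtain ⟨A, hA⟩ : ∃ A, A = univ.filter fun x => c x = i := ⟨_, rfl⟩
  obtain ⟨B, hB⟩ : ∃ B, B = univ.filter fun x => c x = j := ⟨_, rfl⟩
  have hAc : (A.card : ℝ) = size c i := by rw [hA, size_eq]
  have hBc : (B.card : ℝ) = size c j := by rw [hB, size_eq]
  have hmemA : ∀ x, x ∈ A ↔ c x = i := fun x => by rw [hA, mem_filter]; simp
  have hmemB : ∀ x, x ∈ B ↔ c x = j := fun x => by rw [hB, mem_filter]; simp
  obtain ⟨m, hm⟩ : ∃ m, m = ⌊β⌋₊ := ⟨_, rfl⟩
  have hmβ : (m : ℝ) ≤ β := by rw [hm]; exact Nat.floor_le hβ0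
  have hmβ' : β < m + 1 := by rw [hm]; exact Nat.lt_floor_add_one β
  have hmA : m ≤ A.card := by
    have : (m : ℝ) ≤ A.card := by rw [hAc]; linarith
    exact_mod_cast this
  have hmB : m ≤ B.card := by
    have : (m : ℝ) ≤ B.card := by rw [hBc]; linarith
    exact_mod_cast this
  have hC : ∀ a ∈ A, ∀ a' ∈ A, ∀ b ∈ B, ∀ b' ∈ B,
      ¬ (arc T c a b ∧ arc T c b a' ∧ arc T c a' b' ∧ arc T c b' a) := by
    intro a ha a' ha' b hb b' hb' h
    rw [hmemA] at ha ha'
    rw [hmemB] at hb hb'
    exact no_four_cycle hT (ha.trans ha'.symm) (hb.trans hb'.symm) h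
  have hN := nested A B (fun a b => arc T c a b) (fun a b => arc T c b a)
    (fun a b h => arc_asymm h) hC m hmA hmB
  -- a class and the other one
  have key : ∀ (i j : Fin r) (A B : Finset (Fin n)), i ≠ j → A = univ.filter (fun x => c x = i) →
      B = univ.filter (fun x => c x = j) → (m : ℝ) ≤ size c i + size c j - 2 * n / 3 →
      ∑ a ∈ A, pos (((B.filter fun b => ¬ arc T c a b).card : ℝ) - (B.card - m)) ^ 2 ≤
      dev T c i := by
    intro i j A B hij hA hB hm
    unfold dev
    rw [hA, sum_filter]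
    refine sum_le_sum fun a _ => ?_
    by_cases ha : c a = i
    · rw [if_pos ha, ind_true ha, one_mul]
      apply pos_sq_le
      have h2 := deg_le_two (T := T) hij ha
      rw [← hB] at h2
      have h3 : ((B.filter fun b => arc T c a b).card : ℝ) +
          ((B.filter fun b => ¬ arc T c a b).card : ℝ) = B.card := by
        exact_mod_cast card_filter_add_card_filter_not (s := B) (fun b => arc T c a b)
      have hBc : (B.card : ℝ) = size c j := by rw [hB, size_eq]
      rw [hBc] at h3 ⊢
      linarith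
    · rw [if_neg ha, ind_false ha, zero_mul]
  have h1 := key i j A B hij hA hB (by rw [hβ] at hmβ; exact hmβ)
  have h2 := key j i B A (Ne.symm hij) hB hA (by rw [hβ] at hmβ; linarith)
  have hu := undecided_le (T := T) (c := c) hij
  rw [← hA, ← hB] at hu
  have h3 : β ^ 3 - 3 * β ^ 2 ≤ (m : ℝ) ^ 3 := by
    have hm0 : (0 : ℝ) ≤ m := Nat.cast_nonneg m
    rcases le_total β 1 with h | h
    · have : β ^ 3 - 3 * β ^ 2 ≤ 0 := by nlinarith [sq_nonneg β]
      exact this.trans (pow_nonneg hm0 3)
    · have h4 : (β - 1) ^ 3 ≤ (m : ℝ) ^ 3 := pow_le_pow_left₀ (by linarith) (by linarith) 3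
      have h5 : (β - 1) ^ 3 = β ^ 3 - 3 * β ^ 2 + 3 * β - 1 := by ring
      linarith
  have h4 : β ^ 2 ≤ ((n : ℝ) / 3) ^ 2 := by
    apply pow_le_pow_left₀ hβ0
    rw [hβ]
    linarith
  rw [← hβ]
  have h5 : ((n : ℝ) / 3) ^ 2 = (n : ℝ) ^ 2 / 9 := by ring
  rw [h5] at h4
  obtain ⟨σ, hσ⟩ : ∃ σ : ℝ, σ = ∑ a ∈ A, ∑ b ∈ B,
    (if ¬ arc T c a b ∧ ¬ arc T c b a then (1 : ℝ) else 0) := ⟨_, rfl⟩
  rw [← hσ] at hN hu
  have hσ0 : 0 ≤ σ := by
    rw [hσ]
    exact sum_nonneg fun _ _ => sum_nonneg fun _ _ => by split_ifs <;> norm_num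
  have h6 : 4 * σ * ((A.card : ℝ) + B.card) ≤ 2 * n * badO T c := by
    rw [hAc, hBc]
    calc 4 * σ * (size c i + size c j) ≤ 4 * σ * n :=
          mul_le_mul_of_nonneg_left hsum (by positivity)
      _ = 2 * n * (2 * σ) := by ring
      _ ≤ 2 * n * badO T c := mul_le_mul_of_nonneg_left hu (by positivity)
  linarith

/-- the missing triples of the large classes -/
noncomputable def big (T : Finset (Finset (Fin n))) (c : Fin n → Fin r) (i : Fin r) : ℝ :=
  if (n : ℝ) < 3 * size c i then miss T c i else 0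

/-- **The general inequality**, for all coverings and all partitions. -/
theorem large (hT : Cov T) (c : Fin n → Fin r) :
    4 * (n : ℝ) ^ 3 / 9 - 7 * n * badO T c - ∑ i, big T c i +
      1 / 5 * ∑ i, (miss T c i - big T c i) + extS T c - (n : ℝ) ^ 2 / 2 -
      3 * ((r : ℝ) + 1) * (n : ℝ) ^ 2 ≤ 6 * (T.card : ℝ) := by
  obtain ⟨M, hM⟩ : ∃ M : Fin r → ℝ, M = fun i => 6 / 5 * (miss T c i - big T c i) := ⟨_, rfl⟩
  have hcl : ∀ i, (n : ℝ) < 3 * size c i → M i = 0 := by
    intro i hi
    rw [hM]
    dsimp only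
    unfold big
    rw [if_pos hi, sub_self, mul_zero]
  have hMs : ∀ i, 3 * size c i ≤ n → M i = 6 / 5 * miss T c i := by
    intro i hi
    rw [hM]
    dsimp only
    unfold big
    rw [if_neg (not_lt.2 hi), sub_zero]
  have hsplitM : ∑ i, (3 * dev T c i - miss T c i) = ∑ i, (3 * dev T c i - M i) -
      ∑ i, big T c i + 1 / 5 * ∑ i, (miss T c i - big T c i) := by
    rw [mul_sum, ← sum_sub_distrib, ← sum_add_distrib]
    refine sum_congr rfl fun i _ => ?_
    rw [hM]
    ring
  have h1 := general2 hT c
  have hn0 : (0 : ℝ) ≤ n := Nat.cast_nonneg n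
  have hb : 0 ≤ badO T c := sum_nonneg fun _ _ => sum_nonneg fun _ _ => ind_nonneg _
  have hnb : 0 ≤ n * badO T c := mul_nonneg hn0 hb
  rw [hsplitM] at h1
  have hterm : ∀ i, 0 ≤ 3 * dev T c i - M i := by
    intro i
    rcases le_or_gt (3 * size c i) n with h | h
    · have h5 := miss_le hT i h
      have h6 : ∑ x, ind (c x = i) * ((n : ℝ) / 3 - deg T c x) ^ 2 = dev T c i := rfl
      rw [h6] at h5
      rw [hMs i h]
      linarith
    · rw [hcl i h, sub_zero]
      exact mul_nonneg (by norm_num) (dev_nonneg i)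
  have hg : ∀ i, 3 * size c i ≤ n →
      0 ≤ size c i * (size c i - n / 3) * (size c i - 2 * n / 3) := by
    intro i h3
    have h4 := size_nonneg (c := c) i
    have h5 : (size c i - n / 3) * (size c i - 2 * n / 3) =
      (n / 3 - size c i) * (2 * n / 3 - size c i) := by ring
    rw [mul_assoc, h5]
    apply mul_nonneg h4
    apply mul_nonneg <;> linarith
  have hsum := sum_size (c := c)
  -- the claim
  have key : -((n : ℝ) ^ 2 / 2) - 6 * (n * badO T c) ≤
      ∑ i, size c i * (size c i - n / 3) * (size c i - 2 * n / 3) +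
      ∑ i, (3 * dev T c i - M i) := by
    have hn2 : 0 ≤ (n : ℝ) ^ 2 := sq_nonneg _
    have hdev : 0 ≤ ∑ i, (3 * dev T c i - M i) := sum_nonneg fun i _ => hterm i
    by_cases hA : ∀ i, 3 * size c i ≤ n
    · have : 0 ≤ ∑ i, size c i * (size c i - n / 3) * (size c i - 2 * n / 3) :=
        sum_nonneg fun i _ => hg i (hA i)
      linarith
    push Not at hA
    obtain ⟨i0, hi0⟩ := hA
    by_cases hB : ∀ i, i ≠ i0 → 3 * size c i ≤ n
    · -- one large class
      have hrest : ∑ i ∈ univ.erase i0, size c i = n - size c i0 := by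
        rw [← hsum, ← add_sum_erase univ (fun i => size c i) (mem_univ i0)]
        ring
      have hge : 0 ≤ ∑ i, size c i * (size c i - n / 3) * (size c i - 2 * n / 3) := by
        rw [← add_sum_erase univ
          (fun i => size c i * (size c i - n / 3) * (size c i - 2 * n / 3)) (mem_univ i0)]
        rcases le_or_gt (2 * (n : ℝ) / 3) (size c i0) with h2 | h2
        · apply add_nonneg
          · apply mul_nonneg
            · apply mul_nonneg (size_nonneg i0)
              linarith
            · linarith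
          · exact sum_nonneg fun i hi => hg i (hB i (ne_of_mem_erase hi))
        · have h3 := psi_one (univ.erase i0) (fun i => size c i) (z := (n : ℝ) / 3)
            (ρ := n - size c i0) (fun i _ => size_nonneg i)
            (fun i hi => by have := hB i (ne_of_mem_erase hi); linarith) hrest
            (by linarith) (by linarith)
          have h4 : ∑ i ∈ univ.erase i0, size c i * (size c i - n / 3) *
              (size c i - 2 * (n / 3)) = ∑ i ∈ univ.erase i0, size c i * (size c i - n / 3) *
              (size c i - 2 * n / 3) := sum_congr rfl fun i _ => by ring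
          rw [h4] at h3
          have h5 : (3 * ((n : ℝ) / 3) - (n - size c i0)) * (2 * (n / 3) - (n - size c i0)) *
              (n - size c i0 - n / 3) = -(size c i0 * (size c i0 - n / 3) *
              (size c i0 - 2 * n / 3)) := by ring
          rw [h5] at h3
          linarith
      linarith
    · -- two large classes
      push Not at hB
      obtain ⟨i1, hne, hi1⟩ := hB
      obtain ⟨J, hJ⟩ : ∃ J, J = (univ.erase i0).erase i1 := ⟨_, rfl⟩
      have hm1 : i1 ∈ (univ : Finset (Fin r)).erase i0 := mem_erase.2 ⟨hne, mem_univ _⟩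
      have hsplit : ∀ f : Fin r → ℝ, ∑ i, f i = f i0 + (f i1 + ∑ i ∈ J, f i) := by
        intro f
        rw [← add_sum_erase univ f (mem_univ i0), ← add_sum_erase _ f hm1, hJ]
      have hrest : ∑ i ∈ J, size c i = n - size c i0 - size c i1 := by
        have := hsplit fun i => size c i
        rw [hsum] at this
        linarith
      have hrest0 : 0 ≤ n - size c i0 - size c i1 := by
        rw [← hrest]
        exact sum_nonneg fun i _ => size_nonneg i
      have hJs : ∀ i ∈ J, size c i ≤ n - size c i0 - size c i1 := by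
        intro i hi
        rw [← hrest]
        exact single_le_sum (f := fun i => size c i) (fun k _ => size_nonneg k) hi
      have h2 := psi_le J (fun i => size c i) (z := (n : ℝ) / 3)
        (b := n - size c i0 - size c i1) (fun i _ => size_nonneg i) hJs (by linarith)
      have h2e : ∑ i ∈ J, size c i * (size c i - n / 3) *
          (size c i - 2 * (n / 3)) = ∑ i ∈ J, size c i * (size c i - n / 3) *
          (size c i - 2 * n / 3) := sum_congr rfl fun i _ => by ring
      rw [h2e, hrest] at h2
      have h3 := two_dev hT (Ne.symm hne) hi0 hi1 (by linarith)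
      have h4 : 3 * (dev T c i0 + dev T c i1) ≤ ∑ i, (3 * dev T c i - M i) := by
        rw [hsplit fun i => 3 * dev T c i - M i, hcl i0 hi0, hcl i1 hi1]
        have : 0 ≤ ∑ i ∈ J, (3 * dev T c i - M i) := sum_nonneg fun i _ => hterm i
        linarith
      rw [hsplit fun i => size c i * (size c i - n / 3) * (size c i - 2 * n / 3)]
      obtain ⟨p, hp⟩ : ∃ p, p = size c i0 - n / 3 := ⟨_, rfl⟩
      obtain ⟨q, hq⟩ : ∃ q, q = size c i1 - n / 3 := ⟨_, rfl⟩
      have hs0 : size c i0 = n / 3 + p := by rw [hp]; ring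
      have hs1 : size c i1 = n / 3 + q := by rw [hq]; ring
      have hp0 : 0 ≤ p := by rw [hp]; linarith
      have hq0 : 0 ≤ q := by rw [hq]; linarith
      rw [hs0, hs1] at h2 h3 ⊢
      have e1 : (n / 3 + p) * ((n / 3 + p) - n / 3) * ((n / 3 + p) - 2 * n / 3) +
          (n / 3 + q) * ((n / 3 + q) - n / 3) * ((n / 3 + q) - 2 * n / 3) +
          ((n : ℝ) - (n / 3 + p) - (n / 3 + q)) * ((n / 3 - (n - (n / 3 + p) - (n / 3 + q))) *
          (2 * (n / 3) - (n - (n / 3 + p) - (n / 3 + q)))) = -(3 * p * q * (p + q)) := by ring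
      have e2 : (n / 3 + p + (n / 3 + q) - 2 * (n : ℝ) / 3) = p + q := by ring
      rw [e2] at h3
      have e3 : 3 * p * q * (p + q) ≤ 3 / 2 * (p + q) ^ 3 := by
        have h5 : 3 * p * q ≤ 3 / 2 * (p + q) ^ 2 := by nlinarith
        calc 3 * p * q * (p + q) ≤ 3 / 2 * (p + q) ^ 2 * (p + q) :=
              mul_le_mul_of_nonneg_right h5 (by linarith)
          _ = _ := by ring
      linarith
  linarith

end Pool.Agent.Zk14.OW
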