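import Pool.Agent.Zk14.OW.Defs
import Pool.Agent.Zk14.OW.Big

/-!
# The distance from the Fon-der-Flaass covering
-/

set_option autoImplicit false
open Finset
open scoped Classical

namespace Pool.Agent.Zk14.OW

open Pool.Agent.Zk14.OneWay

variable {n r : ℕ} {T : Finset (Finset (Fin n))} {c : Fin n → Fin r}

/-- the six orderings of a triple -/
theorem six_card_le (W : Finset (Finset (Fin n))) (h3 : ∀ e ∈ W, e.card = 3)
    (f : Fin n → Fin n → Fin n → ℝ) (hf0 : ∀ x y z, 0 ≤ f x y z)
    (hf : ∀ x y z, x ≠ y → x ≠ z → y ≠ z → ({x, y, z} : Finset (Fin n)) ∈ W → 1 ≤ f x y z) :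
    6 * (W.card : ℝ) ≤ ∑ x : Fin n, ∑ y : Fin n, ∑ z : Fin n, f x y z := by
  set U : Finset (Fin n × Fin n × Fin n) :=
    univ.filter fun p => ({p.1, p.2.1, p.2.2} : Finset (Fin n)) ∈ W with hU
  have e1 : (U.card : ℝ) ≤ ∑ x : Fin n, ∑ y : Fin n, ∑ z : Fin n, f x y z := by
    rw [hU, ← sum_ind, Fintype.sum_prod_type]
    refine sum_le_sum fun x _ => ?_
    rw [Fintype.sum_prod_type]
    refine sum_le_sum fun y _ => sum_le_sum fun z _ => ?_
    by_cases h : ({x, y, z} : Finset (Fin n)) ∈ W
    · obtain ⟨hxy, hxz, hyz⟩ := not_mem_of_card' h3 h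
      rw [ind_true h]
      exact hf x y z hxy hxz hyz h
    · rw [ind_false h]
      exact hf0 x y z
  have e2 : U.card = ∑ e ∈ W, (U.filter fun p => ({p.1, p.2.1, p.2.2} : Finset (Fin n)) = e).card :=
    card_eq_sum_card_fiberwise fun p hp => by
      rw [hU] at hp
      exact (mem_filter.1 hp).2
  have e3 : ∀ e ∈ W, 6 ≤ (U.filter fun p => ({p.1, p.2.1, p.2.2} : Finset (Fin n)) = e).card := by
    intro e he
    obtain ⟨a, b, d, hab, had, hbd, rfl⟩ := card_eq_three.1 (h3 e he)
    have hsub : ({(a, b, d), (a, d, b), (b, a, d), (b, d, a), (d, a, b), (d, b, a)} :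
        Finset (Fin n × Fin n × Fin n)) ⊆
        (U.filter fun p => ({p.1, p.2.1, p.2.2} : Finset (Fin n)) = {a, b, d}) := by
      intro p hp
      have hpe : ({p.1, p.2.1, p.2.2} : Finset (Fin n)) = {a, b, d} := by
        simp only [mem_insert, mem_singleton] at hp
        rcases hp with rfl | rfl | rfl | rfl | rfl | rfl <;>
          (ext w; simp only [mem_insert, mem_singleton]; try tauto)
      rw [mem_filter, hU, mem_filter]
      exact ⟨⟨mem_univ _, by rw [hpe]; exact he⟩, hpe⟩
    have hcard : ({(a, b, d), (a, d, b), (b, a, d), (b, d, a), (d, a, b), (d, b, a)} :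
        Finset (Fin n × Fin n × Fin n)).card = 6 := by
      rw [card_insert_of_notMem, card_insert_of_notMem, card_insert_of_notMem,
        card_insert_of_notMem, card_insert_of_notMem, card_singleton] <;>
      simp only [mem_insert, mem_singleton, Prod.mk.injEq] <;> tauto
    rw [← hcard]
    exact card_le_card hsub
  have e4 : W.card * 6 ≤ U.card := by
    rw [e2, ← smul_eq_mul]
    exact card_nsmul_le_sum _ _ _ e3
  have : (W.card : ℝ) * 6 ≤ (U.card : ℝ) := by exact_mod_cast e4
  linarith

/-- the orientation -/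
def ori (T : Finset (Finset (Fin n))) (c : Fin n → Fin r) (x y : Fin n) : Prop :=
  arc T c x y ∨ (x < y ∧ c x ≠ c y ∧ Mate T c x y ∧ Mate T c y x)

theorem ori_orientation (T : Finset (Finset (Fin n))) (c : Fin n → Fin r) :
    IsOrientation c (ori T c) := by
  intro x y
  have hcl : ori T c x y → c x ≠ c y := by
    rintro (h | h)
    · exact h.1
    · exact h.2.1
  refine ⟨hcl, fun hc => ⟨?_, fun h => ?_⟩⟩
  · rintro (h | h) (h' | h')
    · exact arc_asymm h h'
    · exact h.2.1 h'.2.2.2
    · exact h'.2.1 h.2.2.2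
    · exact absurd h.1 (not_lt.2 h'.1.le)
  · by_cases hb : Mate T c x y ∧ Mate T c y x
    · rcases lt_or_gt_of_ne (fun h' => hc (h' ▸ rfl) : x ≠ y) with h1 | h1
      · exact Or.inr ⟨h1, hc, hb.1, hb.2⟩
      · exact absurd (Or.inr ⟨h1, Ne.symm hc, hb.2, hb.1⟩) h
    · rcases arc_or hc hb with h1 | h1
      · exact Or.inl h1
      · exact absurd (Or.inl h1) h

theorem ori_noFour (hT : Cov T) (c : Fin n → Fin r) (h0 : twoWay T c = ∅) :
    NoFourCycle c (ori T c) := by
  have hno : ∀ x y, ori T c x y → arc T c x y := by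
    rintro x y (h | h)
    · exact h
    · have : (x, y) ∈ twoWay T c := by
        unfold twoWay
        rw [mem_filter]
        exact ⟨mem_univ _, h.1, h.2.1, h.2.2.1, h.2.2.2⟩
      rw [h0] at this
      exact absurd this (notMem_empty _)
  rintro a a' b b' ha hb ⟨h1, h2, h3, h4⟩
  exact no_four_cycle hT ha hb ⟨hno _ _ h1, hno _ _ h2, hno _ _ h3, hno _ _ h4⟩

/-- the superfluous triples -/
theorem outside_le (hT : Cov T) (c : Fin n → Fin r) :
    6 * ((T \ triples c (ori T c)).card : ℝ) ≤ extS T c := by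
  refine six_card_le _ (fun e he => hT.1 e (mem_sdiff.1 he).1) _
    (fun _ _ _ => ind_nonneg _) ?_
  intro x y z hxy hxz hyz h
  rw [mem_sdiff] at h
  obtain ⟨hm, hn⟩ := h
  have h3 : ({x, y, z} : Finset (Fin n)).card = 3 := hT.1 _ hm
  have hdom : ∀ v, v ∈ ({x, y, z} : Finset (Fin n)) →
      ¬ ∀ w ∈ ({x, y, z} : Finset (Fin n)), w ≠ v → ori T c v w := by
    intro v hv h
    apply hn
    unfold triples
    rw [mem_filter]
    exact ⟨mem_univ _, h3, Or.inr ⟨v, hv, h⟩⟩
  rw [ind_true]
  refine ⟨hm, ?_, ?_, ?_, ?_⟩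
  · rintro ⟨h1, h2⟩
    apply hn
    unfold triples
    rw [mem_filter]
    refine ⟨mem_univ _, h3, Or.inl ⟨c x, ?_⟩⟩
    intro w hw
    unfold part
    rw [mem_filter]
    simp only [mem_insert, mem_singleton] at hw
    rcases hw with rfl | rfl | rfl
    · exact ⟨mem_univ _, rfl⟩
    · exact ⟨mem_univ _, h1.symm⟩
    · exact ⟨mem_univ _, h2.symm⟩
  · intro h
    refine hdom x (by simp) ?_
    intro w hw hwx
    simp only [mem_insert, mem_singleton] at hw
    rcases hw with rfl | rfl | rfl
    · exact absurd rfl hwx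
    · exact Or.inl h.1
    · exact Or.inl h.2.1
  · intro h
    refine hdom y (by simp) ?_
    intro w hw hwx
    simp only [mem_insert, mem_singleton] at hw
    rcases hw with rfl | rfl | rfl
    · exact Or.inl h.1
    · exact absurd rfl hwx
    · exact Or.inl h.2.1
  · intro h
    refine hdom z (by simp) ?_
    intro w hw hwx
    simp only [mem_insert, mem_singleton] at hw
    rcases hw with rfl | rfl | rfl
    · exact Or.inl h.1
    · exact Or.inl h.2.1
    · exact absurd rfl hwx

/-- the missing triples of the small classes -/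
noncomputable def gaps (T : Finset (Finset (Fin n))) (c : Fin n → Fin r) :
    Finset (Finset (Fin n)) :=
  univ.filter fun e => e.card = 3 ∧ e ∉ T ∧ ∃ i, ¬ n < 3 * (part c i).card ∧ e ⊆ part c i

theorem size_part (c : Fin n → Fin r) (i : Fin r) : size c i = ((part c i).card : ℝ) := size_eq i

theorem gaps_le (T : Finset (Finset (Fin n))) (c : Fin n → Fin r) :
    6 * ((gaps T c).card : ℝ) ≤ ∑ i, (miss T c i - big T c i) := by
  obtain ⟨f, hf⟩ : ∃ f : Fin r → Fin n → Fin n → Fin n → ℝ, f = fun i x y z =>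
    if (n : ℝ) < 3 * size c i then 0 else ind (c x = i ∧ c y = i ∧ c z = i ∧ x ≠ y ∧ x ≠ z ∧
      y ≠ z ∧ ({x, y, z} : Finset (Fin n)) ∉ T) := ⟨_, rfl⟩
  have hf0 : ∀ i x y z, 0 ≤ f i x y z := by
    intro i x y z
    rw [hf]
    dsimp only
    split_ifs
    · exact le_rfl
    · exact ind_nonneg _
  have h1 : ∑ i, (miss T c i - big T c i) =
      ∑ x : Fin n, ∑ y : Fin n, ∑ z : Fin n, ∑ i, f i x y z := by
    have h2 : ∀ i, miss T c i - big T c i = ∑ x : Fin n, ∑ y : Fin n, ∑ z : Fin n, f i x y z := by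
      intro i
      rw [hf]
      unfold big
      split_ifs with h
      · rw [sub_self]
        simp only [h, if_true]
        simp
      · rw [sub_zero]
        simp only [h, if_false]
        rfl
    rw [sum_congr rfl fun i _ => h2 i, sum_comm]
    refine sum_congr rfl fun x _ => ?_
    rw [sum_comm]
    refine sum_congr rfl fun y _ => ?_
    rw [sum_comm]
  rw [h1]
  refine six_card_le _ (fun e he => ?_) _ (fun x y z => sum_nonneg fun i _ => hf0 i x y z) ?_
  · unfold gaps at he
    rw [mem_filter] at he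
    exact he.2.1
  intro x y z hxy hxz hyz h
  unfold gaps at h
  rw [mem_filter] at h
  obtain ⟨-, -, hn, i, hi, hsub⟩ := h
  have hmem : ∀ w ∈ ({x, y, z} : Finset (Fin n)), c w = i := by
    intro w hw
    have := hsub hw
    unfold part at this
    rw [mem_filter] at this
    exact this.2
  have h2 : f i x y z = 1 := by
    rw [hf]
    dsimp only
    rw [if_neg, ind_true]
    · exact ⟨hmem x (by simp), hmem y (by simp), hmem z (by simp), hxy, hxz, hyz, hn⟩
    · intro h
      rw [size_part] at h
      exact hi (by exact_mod_cast h)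
  rw [← h2]
  exact single_le_sum (f := fun i => f i x y z) (fun j _ => hf0 j x y z) (mem_univ i)

/-- the missing triples -/
theorem inside_le (hT : Cov T) (c : Fin n → Fin r) :
    ((triples c (ori T c) \ T).card : ℝ) ≤ ((gaps T c).card : ℝ) + ((holes T c).card : ℝ) +
      (r : ℝ) * (n : ℝ) ^ 2 + n * ((twoWay T c).card : ℝ) := by
  obtain ⟨U, hU⟩ : ∃ U : Finset (Fin n × Fin n × Fin n), U = univ.filter fun p =>
    arc T c p.1 p.2.1 ∧ arc T c p.1 p.2.2 ∧ p.2.1 ≠ p.2.2 ∧
      ({p.1, p.2.1, p.2.2} : Finset (Fin n)) ∉ T := ⟨_, rfl⟩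
  have hUc : (U.card : ℝ) ≤ (r : ℝ) * (n : ℝ) ^ 2 := by
    have h1 := missing_le (c := c) hT
    refine le_trans (le_of_eq ?_) h1
    rw [hU, ← sum_ind, Fintype.sum_prod_type]
    refine sum_congr rfl fun x _ => ?_
    rw [Fintype.sum_prod_type]
  obtain ⟨I1, hI1⟩ : ∃ I1 : Finset (Finset (Fin n)), I1 = U.image fun p => {p.1, p.2.1, p.2.2} :=
    ⟨_, rfl⟩
  obtain ⟨I2, hI2⟩ : ∃ I2 : Finset (Finset (Fin n)), I2 =
    ((twoWay T c) ×ˢ (univ : Finset (Fin n))).image fun p => {p.1.1, p.1.2, p.2} := ⟨_, rfl⟩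
  have hI2c : (I2.card : ℝ) ≤ n * ((twoWay T c).card : ℝ) := by
    have h1 : I2.card ≤ (twoWay T c).card * n := by
      rw [hI2]
      refine card_image_le.trans ?_
      rw [card_product, card_univ, Fintype.card_fin]
    have h2 : (I2.card : ℝ) ≤ ((twoWay T c).card : ℝ) * n := by exact_mod_cast h1
    linarith
  have hI1c : (I1.card : ℝ) ≤ U.card := by
    rw [hI1]
    exact_mod_cast card_image_le
  have hsub : triples c (ori T c) \ T ⊆ (gaps T c ∪ holes T c) ∪ (I1 ∪ I2) := by
    intro e he
    rw [mem_sdiff] at he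
    obtain ⟨he, hn⟩ := he
    unfold triples at he
    rw [mem_filter] at he
    obtain ⟨-, h3, he⟩ := he
    rcases he with ⟨i, hi⟩ | ⟨x, hx, hd⟩
    · apply mem_union_left
      by_cases h : n < 3 * (part c i).card
      · apply mem_union_right
        unfold holes
        rw [mem_filter]
        exact ⟨mem_univ _, h3, hn, i, h, hi⟩
      · apply mem_union_left
        unfold gaps
        rw [mem_filter]
        exact ⟨mem_univ _, h3, hn, i, h, hi⟩
    · apply mem_union_right
      have hc : (e.erase x).card = 2 := by rw [card_erase_of_mem hx, h3]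
      obtain ⟨y, z, hyz, hyz2⟩ := card_eq_two.1 hc
      have hy : y ∈ e.erase x := by rw [hyz2]; simp
      have hz : z ∈ e.erase x := by rw [hyz2]; simp
      have hee : e = {x, y, z} := by rw [← hyz2, insert_erase hx]
      rw [mem_erase] at hy hz
      have h1 := hd y hy.2 hy.1
      have h2 := hd z hz.2 hz.1
      rcases h1 with h1 | h1
      · rcases h2 with h2 | h2
        · apply mem_union_left
          rw [hI1, mem_image]
          refine ⟨(x, y, z), ?_, hee.symm⟩
          rw [hU, mem_filter]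
          exact ⟨mem_univ _, h1, h2, hyz, by rw [← hee]; exact hn⟩
        · apply mem_union_right
          rw [hI2, mem_image]
          refine ⟨((x, z), y), ?_, ?_⟩
          · rw [mem_product]
            refine ⟨?_, mem_univ _⟩
            unfold twoWay
            rw [mem_filter]
            exact ⟨mem_univ _, h2.1, h2.2.1, h2.2.2.1, h2.2.2.2⟩
          · rw [hee]
            ext w
            simp only [mem_insert, mem_singleton]
            tauto
      · apply mem_union_right
        rw [hI2, mem_image]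
        refine ⟨((x, y), z), ?_, hee.symm⟩
        rw [mem_product]
        refine ⟨?_, mem_univ _⟩
        unfold twoWay
        rw [mem_filter]
        exact ⟨mem_univ _, h1.1, h1.2.1, h1.2.2.1, h1.2.2.2⟩
  have h1 : (triples c (ori T c) \ T).card ≤ ((gaps T c).card + (holes T c).card) +
      (I1.card + I2.card) := by
    refine (card_le_card hsub).trans ((card_union_le _ _).trans ?_)
    exact add_le_add (card_union_le _ _) (card_union_le _ _)
  have h2 : ((triples c (ori T c) \ T).card : ℝ) ≤ (((gaps T c).card : ℝ) +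
      ((holes T c).card : ℝ)) + ((I1.card : ℝ) + (I2.card : ℝ)) := by exact_mod_cast h1
  linarith

theorem badO_le (T : Finset (Finset (Fin n))) (c : Fin n → Fin r) :
    badO T c ≤ 2 * ((twoWay T c).card : ℝ) := by
  obtain ⟨U, hU⟩ : ∃ U : Finset (Fin n × Fin n), U = univ.filter fun p =>
    c p.1 ≠ c p.2 ∧ Attached T c p.1 p.2 ∧ Attached T c p.2 p.1 := ⟨_, rfl⟩
  have h1 : badO T c = (U.card : ℝ) := by
    rw [hU, ← sum_ind, Fintype.sum_prod_type]
    rfl
  have h2 : U ⊆ twoWay T c ∪ (twoWay T c).image Prod.swap := by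
    rintro ⟨x, y⟩ hp
    rw [hU, mem_filter] at hp
    obtain ⟨-, hc, h3, h4⟩ := hp
    simp only at hc h3 h4
    have hne : x ≠ y := fun h => hc (h ▸ rfl)
    rw [mem_union]
    rcases lt_or_gt_of_ne hne with h | h
    · left
      unfold twoWay
      rw [mem_filter]
      exact ⟨mem_univ _, h, hc, h3, h4⟩
    · right
      rw [mem_image]
      refine ⟨(y, x), ?_, rfl⟩
      unfold twoWay
      rw [mem_filter]
      exact ⟨mem_univ _, h, Ne.symm hc, h4, h3⟩
  have h3 : U.card ≤ 2 * (twoWay T c).card := by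
    refine (card_le_card h2).trans ((card_union_le _ _).trans ?_)
    have := card_image_le (s := twoWay T c) (f := Prod.swap)
    omega
  rw [h1]
  exact_mod_cast h3

theorem big_le (T : Finset (Finset (Fin n))) (c : Fin n → Fin r) :
    ∑ i, big T c i ≤ 6 * ((holes T c).card : ℝ) := by
  obtain ⟨P, hP⟩ : ∃ P : Fin r → Fin n → Fin n → Fin n → Prop, P = fun i x y z =>
    c x = i ∧ c y = i ∧ c z = i ∧ x ≠ y ∧ x ≠ z ∧ y ≠ z ∧ ({x, y, z} : Finset (Fin n)) ∉ T :=
    ⟨_, rfl⟩
  have h1 : ∀ i, big T c i ≤ ∑ x : Fin n, ∑ y : Fin n, ∑ z : Fin n,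
      ind (c x = i) * ind (({x, y, z} : Finset (Fin n)) ∈ holes T c) := by
    intro i
    unfold big
    split_ifs with h
    · unfold miss
      refine sum_le_sum fun x _ => sum_le_sum fun y _ => sum_le_sum fun z _ => ?_
      by_cases h2 : P i x y z
      · have h3 := h2
        rw [hP] at h3
        obtain ⟨hx, hy, hz, hxy, hxz, hyz, hm⟩ := h3
        have h4 : ({x, y, z} : Finset (Fin n)) ∈ holes T c := by
          unfold holes
          rw [mem_filter]
          refine ⟨mem_univ _, card_eq_three.2 ⟨x, y, z, hxy, hxz, hyz, rfl⟩, hm, i, ?_, ?_⟩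
          · rw [size_part] at h
            exact_mod_cast h
          · intro w hw
            unfold part
            rw [mem_filter]
            simp only [mem_insert, mem_singleton] at hw
            rcases hw with rfl | rfl | rfl
            · exact ⟨mem_univ _, hx⟩
            · exact ⟨mem_univ _, hy⟩
            · exact ⟨mem_univ _, hz⟩
        rw [ind_true hx, ind_true h4, one_mul]
        exact ind_le_one _
      · rw [hP] at h2
        rw [ind_false h2]
        exact mul_nonneg (ind_nonneg _) (ind_nonneg _)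
    · exact sum_nonneg fun _ _ => sum_nonneg fun _ _ => sum_nonneg fun _ _ =>
        mul_nonneg (ind_nonneg _) (ind_nonneg _)
  have h2 : ∑ i, ∑ x : Fin n, ∑ y : Fin n, ∑ z : Fin n, ind (c x = i) *
      ind (({x, y, z} : Finset (Fin n)) ∈ holes T c) =
      ∑ x : Fin n, ∑ y : Fin n, ∑ z : Fin n,
      ind (({x, y, z} : Finset (Fin n)) ∈ holes T c) := by
    rw [sum_comm]
    refine sum_congr rfl fun x _ => ?_
    have h3 : ∑ i, ind (c x = i) = 1 := by
      rw [sum_eq_single (c x)]
      · exact ind_true rfl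
      · intro i _ hi
        exact ind_false (Ne.symm hi)
      · simp
    simp only [← mul_sum]
    rw [← sum_mul, h3, one_mul]
  have h3 := six_card_ge' (T := holes T c) (by
    intro e he
    unfold holes at he
    rw [mem_filter] at he
    exact he.2.1)
  calc ∑ i, big T c i ≤ _ := sum_le_sum fun i _ => h1 i
    _ = _ := h2
    _ ≤ _ := h3

/-- the main inequality -/
theorem main (hT : Covering T) (c : Fin n → Fin r) :
    10 * n ^ 3 + 27 * (symmDiff T (triples c (ori T c))).card ≤
      135 * T.card + 162 * (holes T c).card + 342 * n * (twoWay T c).card +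
        95 * (r + 1) * n ^ 2 := by
  have hT' : Cov T := hT
  have h1 := large hT' c
  have h2 := badO_le T c
  have h3 := big_le T c
  have h4 := outside_le hT' c
  have h5 := gaps_le T c
  have h6 := inside_le hT' c
  have hn : (0 : ℝ) ≤ n := Nat.cast_nonneg n
  have h7 : (n : ℝ) * badO T c ≤ n * (2 * ((twoWay T c).card : ℝ)) :=
    mul_le_mul_of_nonneg_left h2 hn
  have h8 : ((symmDiff T (triples c (ori T c))).card : ℝ) ≤
      ((T \ triples c (ori T c)).card : ℝ) + ((triples c (ori T c) \ T).card : ℝ) := by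
    have : symmDiff T (triples c (ori T c)) =
      (T \ triples c (ori T c)) ∪ (triples c (ori T c) \ T) := rfl
    rw [this]
    exact_mod_cast card_union_le _ _
  have h9 : 0 ≤ (r : ℝ) * (n : ℝ) ^ 2 := by positivity
  have h10 : 0 ≤ (n : ℝ) ^ 2 := by positivity
  have h11 : (0 : ℝ) ≤ ((T \ triples c (ori T c)).card : ℝ) := Nat.cast_nonneg _
  have h12 : 10 * (n : ℝ) ^ 3 + 27 * ((symmDiff T (triples c (ori T c))).card : ℝ) ≤
      135 * (T.card : ℝ) + 162 * ((holes T c).card : ℝ) + 342 * n * ((twoWay T c).card : ℝ) +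
        95 * ((r : ℝ) + 1) * (n : ℝ) ^ 2 := by
    nlinarith
  exact_mod_cast h12

end Pool.Agent.Zk14.OW
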