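import Pool.Agent.Zk14.OW.Defs

/-!
# The Fon-der-Flaass coverings of the orientations of complete multipartite graphs
-/

set_option autoImplicit false
open Finset

namespace Pool.Agent.Zk14.OneWay

theorem covering_triples {n r : ℕ} {c : Fin n → Fin r} {R : Fin n → Fin n → Prop}
    (hR : IsOrientation c R) (hC : NoFourCycle c R) : Covering (triples c R) := by
  classical
  refine ⟨fun e he => ?_, fun S hS => ?_⟩
  · unfold triples at he
    rw [mem_filter] at he
    exact he.2.1
  by_contra hno
  push Not at hno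
  have hor : ∀ x y, c x ≠ c y → ¬ R x y → R y x := fun x y h h' =>
    ((hR y x).2 (Ne.symm h)).2 h'
  have hcls : ∀ x ∈ S, ∀ y ∈ S, ∀ z ∈ S, x ≠ y → x ≠ z → y ≠ z → c x = c y → c x ≠ c z := by
    intro x hx y hy z hz hxy hxz hyz h1 h2
    apply hno {x, y, z}
    · unfold triples
      rw [mem_filter]
      refine ⟨mem_univ _, card_eq_three.2 ⟨x, y, z, hxy, hxz, hyz, rfl⟩, Or.inl ⟨c x, ?_⟩⟩
      intro w hw
      unfold part
      rw [mem_filter]
      simp only [mem_insert, mem_singleton] at hw
      rcases hw with rfl | rfl | rfl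
      · exact ⟨mem_univ _, rfl⟩
      · exact ⟨mem_univ _, h1.symm⟩
      · exact ⟨mem_univ _, h2.symm⟩
    · intro w hw
      simp only [mem_insert, mem_singleton] at hw
      rcases hw with rfl | rfl | rfl <;> assumption
  have hdom : ∀ x ∈ S, ∀ y ∈ S, ∀ z ∈ S, y ≠ z → R x y → ¬ R x z := by
    intro x hx y hy z hz hyz h1 h2
    have hxy : x ≠ y := fun h => (hR x y).1 h1 (h ▸ rfl)
    have hxz : x ≠ z := fun h => (hR x z).1 h2 (h ▸ rfl)
    apply hno {x, y, z}
    · unfold triples
      rw [mem_filter]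
      refine ⟨mem_univ _, card_eq_three.2 ⟨x, y, z, hxy, hxz, hyz, rfl⟩, Or.inr ⟨x, by simp, ?_⟩⟩
      intro w hw hwx
      simp only [mem_insert, mem_singleton] at hw
      rcases hw with rfl | rfl | rfl
      · exact absurd rfl hwx
      · exact h1
      · exact h2
    · intro w hw
      simp only [mem_insert, mem_singleton] at hw
      rcases hw with rfl | rfl | rfl <;> assumption
  by_cases hpair : ∃ a ∈ S, ∃ b ∈ S, a ≠ b ∧ c a = c b
  · obtain ⟨a, ha, b, hb, hab, hcab⟩ := hpair
    have hcard : ((S.erase a).erase b).card = 2 := by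
      rw [card_erase_of_mem (mem_erase.2 ⟨Ne.symm hab, hb⟩), card_erase_of_mem ha, hS]
    obtain ⟨x, y, hxy, hxye⟩ := card_eq_two.1 hcard
    have hx : x ∈ (S.erase a).erase b := by rw [hxye]; simp
    have hy : y ∈ (S.erase a).erase b := by rw [hxye]; simp
    rw [mem_erase, mem_erase] at hx hy
    obtain ⟨hxb, hxa, hx⟩ := hx
    obtain ⟨hyb, hya, hy⟩ := hy
    have hax : c a ≠ c x := hcls a ha b hb x hx hab (Ne.symm hxa) (Ne.symm hxb) hcab
    have hay : c a ≠ c y := hcls a ha b hb y hy hab (Ne.symm hya) (Ne.symm hyb) hcab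
    have hbx : c b ≠ c x := hcab ▸ hax
    have hby : c b ≠ c y := hcab ▸ hay
    by_cases hcxy : c x = c y
    · by_cases h1 : R a x
      · have h2 : R y a := hor a y hay (hdom a ha x hx y hy hxy h1)
        have h3 : R b y := hor y b (Ne.symm hby) (hdom y hy a ha b hb hab h2)
        have h4 : R x b := hor b x hbx (hdom b hb y hy x hx (Ne.symm hxy) h3)
        exact hC a b x y hcab hcxy ⟨h1, h4, h3, h2⟩
      · have h2 : R x a := hor a x hax h1
        have h3 : R b x := hor x b (Ne.symm hbx) (hdom x hx a ha b hb hab h2)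
        have h4 : R y b := hor b y hby (hdom b hb x hx y hy hxy h3)
        have h5 : R a y := hor y a (Ne.symm hay) (hdom y hy b hb a ha (Ne.symm hab) h4)
        exact hC a b y x hcab hcxy.symm ⟨h5, h4, h3, h2⟩
    · by_cases h1 : R x y
      · have h2 : R a x := hor x a (Ne.symm hax) (hdom x hx y hy a ha hya h1)
        have h3 : R b x := hor x b (Ne.symm hbx) (hdom x hx y hy b hb hyb h1)
        have h4 : R y a := hor a y hay (hdom a ha x hx y hy hxy h2)
        have h5 : R y b := hor b y hby (hdom b hb x hx y hy hxy h3)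
        exact hdom y hy a ha b hb hab h4 h5
      · have h1' : R y x := hor x y hcxy h1
        have h2 : R a y := hor y a (Ne.symm hay) (hdom y hy x hx a ha hxa h1')
        have h3 : R b y := hor y b (Ne.symm hby) (hdom y hy x hx b hb hxb h1')
        have h4 : R x a := hor a x hax (hdom a ha y hy x hx (Ne.symm hxy) h2)
        have h5 : R x b := hor b x hbx (hdom b hb y hy x hx (Ne.symm hxy) h3)
        exact hdom x hx a ha b hb hab h4 h5
  · push Not at hpair
    obtain ⟨a, x, y, b, hax, hay, hab, hxy, hxb, hyb, hSe⟩ := card_eq_four.1 hS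
    have ha : a ∈ S := by rw [hSe]; simp
    have hx : x ∈ S := by rw [hSe]; simp
    have hy : y ∈ S := by rw [hSe]; simp
    have key : ∀ p ∈ S, ∀ q ∈ S, ∀ s ∈ S, p ≠ q → p ≠ s → q ≠ s → ∀ t ∈ S, t ≠ p → t ≠ q →
        t ≠ s → R p q → False := by
      intro p hp q hq s hs hpq hps hqs t ht htp htq hts h
      have h1 : R s p := hor p s (hpair p hp s hs hps) (hdom p hp q hq s hs hqs h)
      have h2 : R t p := hor p t (hpair p hp t ht (Ne.symm htp)) (hdom p hp q hq t ht (Ne.symm htq) h)
      have h3 : R t s := hor s t (hpair s hs t ht (Ne.symm hts)) (hdom s hs p hp t ht (Ne.symm htp) h1)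
      exact hdom t ht p hp s hs hps h2 h3
    have hb : b ∈ S := by rw [hSe]; simp
    by_cases h : R a x
    · exact key a ha x hx y hy hax hay hxy b hb (Ne.symm hab) (Ne.symm hxb) (Ne.symm hyb) h
    · exact key x hx a ha y hy (Ne.symm hax) hxy hay b hb (Ne.symm hxb) (Ne.symm hab)
        (Ne.symm hyb) (hor a x (hpair a ha x hx hax) h)

theorem attached_triples {n r : ℕ} {c : Fin n → Fin r} {R : Fin n → Fin n → Prop}
    (hR : IsOrientation c R) {x y : Fin n} (hxy : c x ≠ c y) (h : Attached (triples c R) c x y) :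
    R y x := by
  classical
  obtain ⟨z, hzx, hcz, hm⟩ := h
  unfold triples at hm
  rw [mem_filter] at hm
  obtain ⟨-, -, hm⟩ := hm
  rcases hm with ⟨i, hi⟩ | ⟨w, hw, hwd⟩
  · exfalso
    have h1 : x ∈ part c i := hi (by simp)
    have h2 : y ∈ part c i := hi (by simp)
    unfold part at h1 h2
    rw [mem_filter] at h1 h2
    exact hxy (h1.2.trans h2.2.symm)
  · simp only [mem_insert, mem_singleton] at hw
    rcases hw with rfl | rfl | rfl
    · exact absurd hcz.symm ((hR _ _).1 (hwd z (by simp) hzx))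
    · exact absurd hcz ((hR _ _).1 (hwd x (by simp) (Ne.symm hzx)))
    · exact hwd x (by simp) (fun h => hxy (h ▸ rfl))

theorem twoWay_triples {n r : ℕ} {c : Fin n → Fin r} {R : Fin n → Fin n → Prop}
    (hR : IsOrientation c R) : twoWay (triples c R) c = ∅ := by
  classical
  apply eq_empty_of_forall_notMem
  rintro ⟨x, y⟩ hp
  unfold twoWay at hp
  rw [mem_filter] at hp
  obtain ⟨-, -, hc, h1, h2⟩ := hp
  simp only at hc h1 h2
  have h3 := attached_triples hR hc h1
  have h4 := attached_triples hR (Ne.symm hc) h2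
  exact ((hR x y).2 hc).1 h4 h3

theorem holes_triples {n r : ℕ} (c : Fin n → Fin r) (R : Fin n → Fin n → Prop) :
    holes (triples c R) c = ∅ := by
  classical
  apply eq_empty_of_forall_notMem
  intro e he
  unfold holes at he
  rw [mem_filter] at he
  obtain ⟨-, h3, hno, i, -, hsub⟩ := he
  apply hno
  unfold triples
  rw [mem_filter]
  exact ⟨mem_univ _, h3, Or.inl ⟨i, hsub⟩⟩

end Pool.Agent.Zk14.OneWay
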