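import Pool.Agent.Zk14.OW.FI

/-!
# Coverings with a partition: the arcs and the count of the source cherries
-/

set_option autoImplicit false
open Finset
open scoped Classical

namespace Pool.Agent.Zk14.OW

variable {n r : ℕ} {T : Finset (Finset (Fin n))} {c : Fin n → Fin r}

/-- `T` consists of triples and every four vertices contain a member of `T` -/
def Cov (T : Finset (Finset (Fin n))) : Prop :=
  (∀ e ∈ T, e.card = 3) ∧ ∀ S : Finset (Fin n), S.card = 4 → ∃ e ∈ T, e ⊆ S

/-- some member of `T` contains `x`, `y` and another vertex of the class of `x` -/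
def Mate (T : Finset (Finset (Fin n))) (c : Fin n → Fin r) (x y : Fin n) : Prop :=
  ∃ z, z ≠ x ∧ c z = c x ∧ ({x, z, y} : Finset (Fin n)) ∈ T

/-- the arcs between the classes -/
def arc (T : Finset (Finset (Fin n))) (c : Fin n → Fin r) (x y : Fin n) : Prop :=
  c x ≠ c y ∧ ¬ Mate T c x y ∧ (Mate T c y x ∨ x < y)

theorem arc_asymm {x y : Fin n} (h : arc T c x y) : ¬ arc T c y x := by
  rintro ⟨_, h2, h3⟩
  obtain ⟨_, h5, h6⟩ := h
  rcases h6 with h6 | h6
  · exact h2 h6
  rcases h3 with h3 | h3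
  · exact h5 h3
  · exact absurd h6 (not_lt.2 h3.le)

theorem arc_or {x y : Fin n} (h : c x ≠ c y) (h2 : ¬ (Mate T c x y ∧ Mate T c y x)) :
    arc T c x y ∨ arc T c y x := by
  have hne : x ≠ y := fun h' => h (h' ▸ rfl)
  by_cases h3 : Mate T c x y
  · exact Or.inr ⟨Ne.symm h, fun h4 => h2 ⟨h3, h4⟩, Or.inl h3⟩
  · by_cases h4 : Mate T c y x
    · exact Or.inl ⟨h, h3, Or.inl h4⟩
    · rcases lt_or_gt_of_ne hne with h5 | h5
      · exact Or.inl ⟨h, h3, Or.inr h5⟩
      · exact Or.inr ⟨Ne.symm h, h4, Or.inr h5⟩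

theorem arc_not {x y z : Fin n} (h : arc T c x y) (hz : z ≠ x) (hc : c z = c x) :
    ({x, z, y} : Finset (Fin n)) ∉ T := fun h' => h.2.1 ⟨z, hz, hc, h'⟩

theorem not_uncovered (hT : Cov T) {a b x y : Fin n} (hab : a ≠ b) (hax : a ≠ x) (hay : a ≠ y)
    (hbx : b ≠ x) (hby : b ≠ y) (hxy : x ≠ y) (h1 : ({a, b, x} : Finset (Fin n)) ∉ T)
    (h2 : ({a, b, y} : Finset (Fin n)) ∉ T) (h3 : ({a, x, y} : Finset (Fin n)) ∉ T)
    (h4 : ({b, x, y} : Finset (Fin n)) ∉ T) : False := by
  have hS : ({a, b, x, y} : Finset (Fin n)).card = 4 := by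
    rw [card_insert_of_notMem, card_insert_of_notMem, card_insert_of_notMem, card_singleton] <;>
      simp only [mem_insert, mem_singleton] <;> tauto
  obtain ⟨e, he, hsub⟩ := hT.2 _ hS
  have h3e := hT.1 e he
  obtain ⟨w, hw, hwe⟩ : ∃ w ∈ ({a, b, x, y} : Finset (Fin n)), w ∉ e := by
    by_contra h
    push Not at h
    have := card_le_card (show ({a, b, x, y} : Finset (Fin n)) ⊆ e from h)
    omega
  have hee : e = ({a, b, x, y} : Finset (Fin n)).erase w := by
    apply eq_of_subset_of_card_le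
    · intro z hz
      exact mem_erase.2 ⟨fun h => hwe (h ▸ hz), hsub hz⟩
    · rw [card_erase_of_mem hw, hS, h3e]
  simp only [mem_insert, mem_singleton] at hw
  rcases hw with rfl | rfl | rfl | rfl
  · apply h4
    have : ({w, b, x, y} : Finset (Fin n)).erase w = {b, x, y} := by
      ext z; simp only [mem_erase, mem_insert, mem_singleton]
      constructor
      · rintro ⟨h, h'⟩; tauto
      · rintro (rfl | rfl | rfl) <;> exact ⟨Ne.symm (by assumption), by tauto⟩
    rwa [hee, this] at he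
  · apply h3
    have : ({a, w, x, y} : Finset (Fin n)).erase w = {a, x, y} := by
      ext z; simp only [mem_erase, mem_insert, mem_singleton]
      constructor
      · rintro ⟨h, h'⟩; tauto
      · rintro (rfl | rfl | rfl)
        · exact ⟨hab, by tauto⟩
        · exact ⟨Ne.symm hbx, by tauto⟩
        · exact ⟨Ne.symm hby, by tauto⟩
    rwa [hee, this] at he
  · apply h2
    have : ({a, b, w, y} : Finset (Fin n)).erase w = {a, b, y} := by
      ext z; simp only [mem_erase, mem_insert, mem_singleton]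
      constructor
      · rintro ⟨h, h'⟩; tauto
      · rintro (rfl | rfl | rfl)
        · exact ⟨hax, by tauto⟩
        · exact ⟨hbx, by tauto⟩
        · exact ⟨Ne.symm hxy, by tauto⟩
    rwa [hee, this] at he
  · apply h1
    have : ({a, b, x, w} : Finset (Fin n)).erase w = {a, b, x} := by
      ext z; simp only [mem_erase, mem_insert, mem_singleton]
      constructor
      · rintro ⟨h, h'⟩; tauto
      · rintro (rfl | rfl | rfl)
        · exact ⟨hay, by tauto⟩
        · exact ⟨hby, by tauto⟩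
        · exact ⟨hxy, by tauto⟩
    rwa [hee, this] at he

theorem not_mem_of_card' (hT : ∀ e ∈ T, e.card = 3) {x y z : Fin n}
    (h : ({x, y, z} : Finset (Fin n)) ∈ T) : x ≠ y ∧ x ≠ z ∧ y ≠ z := by
  have h3 := hT _ h
  refine ⟨?_, ?_, ?_⟩
  · rintro rfl
    have h4 : ({x, x, z} : Finset (Fin n)) = {x, z} := by simp
    rw [h4] at h3
    have := card_le_two (a := x) (b := z)
    omega
  · rintro rfl
    have h4 : ({x, y, x} : Finset (Fin n)) = {x, y} := by
      ext w; simp only [mem_insert, mem_singleton]; tauto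
    rw [h4] at h3
    have := card_le_two (a := x) (b := y)
    omega
  · rintro rfl
    have h4 : ({x, y, y} : Finset (Fin n)) = {x, y} := by simp
    rw [h4] at h3
    have := card_le_two (a := x) (b := y)
    omega

/-- the indicator of a proposition -/
noncomputable def ind (P : Prop) : ℝ := if P then 1 else 0

theorem ind_nonneg (P : Prop) : 0 ≤ ind P := by unfold ind; split_ifs <;> norm_num
theorem ind_le_one (P : Prop) : ind P ≤ 1 := by unfold ind; split_ifs <;> norm_num
theorem ind_true {P : Prop} (h : P) : ind P = 1 := if_pos h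
theorem ind_false {P : Prop} (h : ¬ P) : ind P = 0 := if_neg h
theorem ind_congr {P Q : Prop} (h : P ↔ Q) : ind P = ind Q := by unfold ind; simp only [h]
theorem ind_sq (P : Prop) : ind P ^ 2 = ind P := by unfold ind; split_ifs <;> norm_num

theorem sum_ind {α : Type} [Fintype α] (P : α → Prop) [DecidablePred P] :
    ∑ x, ind (P x) = ((univ.filter P).card : ℝ) := by
  rw [card_filter]
  push_cast
  refine sum_congr rfl fun x _ => ?_
  by_cases h : P x
  · rw [ind_true h, if_pos h]
  · rw [ind_false h, if_neg h]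

/-- the ordered triples of a family of triples -/
theorem six_card_ge' (h3 : ∀ e ∈ T, e.card = 3) :
    ∑ x : Fin n, ∑ y : Fin n, ∑ z : Fin n, ind (({x, y, z} : Finset (Fin n)) ∈ T) ≤
      6 * (T.card : ℝ) := by
  set U : Finset (Fin n × Fin n × Fin n) :=
    univ.filter fun p => ({p.1, p.2.1, p.2.2} : Finset (Fin n)) ∈ T with hU
  have e1 : ∑ x : Fin n, ∑ y : Fin n, ∑ z : Fin n, ind (({x, y, z} : Finset (Fin n)) ∈ T) =
      (U.card : ℝ) := by
    rw [hU, ← sum_ind, Fintype.sum_prod_type]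
    refine sum_congr rfl fun x _ => ?_
    rw [Fintype.sum_prod_type]
  rw [e1]
  have e2 : U.card = ∑ e ∈ T, (U.filter fun p => ({p.1, p.2.1, p.2.2} : Finset (Fin n)) = e).card :=
    card_eq_sum_card_fiberwise fun p hp => by
      rw [hU] at hp
      exact (mem_filter.1 hp).2
  have e3 : ∀ e ∈ T, (U.filter fun p => ({p.1, p.2.1, p.2.2} : Finset (Fin n)) = e).card ≤ 6 := by
    intro e he
    obtain ⟨a, b, d, hab, had, hbd, rfl⟩ := card_eq_three.1 (h3 e he)
    have hsub : (U.filter fun p => ({p.1, p.2.1, p.2.2} : Finset (Fin n)) = {a, b, d}) ⊆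
        ({(a, b, d), (a, d, b), (b, a, d), (b, d, a), (d, a, b), (d, b, a)} :
        Finset (Fin n × Fin n × Fin n)) := by
      rintro ⟨x, y, z⟩ hp
      rw [mem_filter] at hp
      have hset : ({x, y, z} : Finset (Fin n)) = {a, b, d} := hp.2
      obtain ⟨hxy, hxz, hyz⟩ := not_mem_of_card' h3 (by rw [hset]; exact he)
      have hx : x = a ∨ x = b ∨ x = d := by
        have : x ∈ ({a, b, d} : Finset (Fin n)) := by rw [← hset]; simp
        simpa using this
      have hy : y = a ∨ y = b ∨ y = d := by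
        have : y ∈ ({a, b, d} : Finset (Fin n)) := by rw [← hset]; simp
        simpa using this
      have hz : z = a ∨ z = b ∨ z = d := by
        have : z ∈ ({a, b, d} : Finset (Fin n)) := by rw [← hset]; simp
        simpa using this
      simp only [mem_insert, mem_singleton, Prod.mk.injEq]
      rcases hx with hx | hx | hx <;> rcases hy with hy | hy | hy <;>
        rcases hz with hz | hz | hz <;> (try exact absurd (hx.trans hy.symm) hxy) <;>
        (try exact absurd (hx.trans hz.symm) hxz) <;> (try exact absurd (hy.trans hz.symm) hyz) <;>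
        tauto
    refine (card_le_card hsub).trans ?_
    refine (card_insert_le _ _).trans ?_
    refine Nat.succ_le_succ ((card_insert_le _ _).trans ?_)
    refine Nat.succ_le_succ ((card_insert_le _ _).trans ?_)
    refine Nat.succ_le_succ ((card_insert_le _ _).trans ?_)
    refine Nat.succ_le_succ ((card_insert_le _ _).trans ?_)
    simp
  have e4 : U.card ≤ T.card * 6 := by
    rw [e2, ← smul_eq_mul]
    exact sum_le_card_nsmul _ _ _ e3
  have : (U.card : ℝ) ≤ (T.card : ℝ) * 6 := by exact_mod_cast e4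
  linarith

/-- the ordered triples of `T` -/
theorem six_card_ge (hT : Cov T) :
    ∑ x : Fin n, ∑ y : Fin n, ∑ z : Fin n, ind (({x, y, z} : Finset (Fin n)) ∈ T) ≤
      6 * (T.card : ℝ) := six_card_ge' hT.1

/-- the outdegree -/
noncomputable def deg (T : Finset (Finset (Fin n))) (c : Fin n → Fin r) (x : Fin n) : ℝ :=
  ∑ y, ind (arc T c x y)

/-- at most one source cherry over a pair from every class is missing in `T` -/
theorem missing_le (hT : Cov T) : ∑ v : Fin n, ∑ a : Fin n, ∑ b : Fin n,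
    ind (arc T c v a ∧ arc T c v b ∧ a ≠ b ∧ ({v, a, b} : Finset (Fin n)) ∉ T) ≤
      (r : ℝ) * (n : ℝ) ^ 2 := by
  set U : Finset (Fin n × Fin n × Fin n) := univ.filter fun p =>
    arc T c p.1 p.2.1 ∧ arc T c p.1 p.2.2 ∧ p.2.1 ≠ p.2.2 ∧
      ({p.1, p.2.1, p.2.2} : Finset (Fin n)) ∉ T with hU
  have e1 : ∑ v : Fin n, ∑ a : Fin n, ∑ b : Fin n,
      ind (arc T c v a ∧ arc T c v b ∧ a ≠ b ∧ ({v, a, b} : Finset (Fin n)) ∉ T) =
      (U.card : ℝ) := by
    rw [hU, ← sum_ind, Fintype.sum_prod_type]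
    refine sum_congr rfl fun x _ => ?_
    rw [Fintype.sum_prod_type]
  rw [e1]
  have h1 : U.card ≤ (univ : Finset (Fin r × Fin n × Fin n)).card := by
    refine card_le_card_of_injOn (fun p => (c p.1, p.2.1, p.2.2)) (fun _ _ => mem_coe.2 (mem_univ _)) ?_
    rintro ⟨v, a, b⟩ hv ⟨w, a', b'⟩ hw h
    simp only [Prod.mk.injEq] at h
    obtain ⟨hc, rfl, rfl⟩ := h
    rw [mem_coe, hU, mem_filter] at hv hw
    obtain ⟨-, hva, hvb, hab, hvT⟩ := hv
    obtain ⟨-, hwa, hwb, -, hwT⟩ := hw
    simp only at hva hvb hab hvT hwa hwb hwT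
    by_contra hne
    have hvw : v ≠ w := fun h => hne (by rw [h])
    have hva' : v ≠ a := fun h => hva.1 (h ▸ rfl)
    have hvb' : v ≠ b := fun h => hvb.1 (h ▸ rfl)
    have hwa' : w ≠ a := fun h => hwa.1 (h ▸ rfl)
    have hwb' : w ≠ b := fun h => hwb.1 (h ▸ rfl)
    exact not_uncovered hT hvw hva' hvb' hwa' hwb' hab
      (arc_not hva (Ne.symm hvw) hc.symm) (arc_not hvb (Ne.symm hvw) hc.symm) hvT hwT
  have h2 : (univ : Finset (Fin r × Fin n × Fin n)).card = r * n ^ 2 := by
    rw [card_univ, Fintype.card_prod, Fintype.card_prod, Fintype.card_fin, Fintype.card_fin]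
    ring
  rw [h2] at h1
  exact_mod_cast h1

theorem cherries (T : Finset (Finset (Fin n))) (c : Fin n → Fin r) :
    ∑ v : Fin n, ∑ a : Fin n, ∑ b : Fin n, ind (arc T c v a ∧ arc T c v b ∧ a ≠ b) =
      ∑ v, (deg T c v ^ 2 - deg T c v) := by
  refine sum_congr rfl fun v _ => ?_
  have h1 : ∀ a b, ind (arc T c v a ∧ arc T c v b ∧ a ≠ b) =
      ind (arc T c v a) * ind (arc T c v b) - ind (arc T c v a) * (if a = b then 1 else 0) := by
    intro a b
    by_cases ha : arc T c v a
    · by_cases hb : arc T c v b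
      · by_cases hab : a = b
        · rw [ind_false (fun h => h.2.2 hab), ind_true ha, ind_true hb, if_pos hab]; ring
        · rw [ind_true ⟨ha, hb, hab⟩, ind_true ha, ind_true hb, if_neg hab]; ring
      · have hab : a ≠ b := fun h => hb (h ▸ ha)
        rw [ind_false (fun h => hb h.2.1), ind_true ha, ind_false hb, if_neg hab]; ring
    · rw [ind_false (fun h => ha h.1), ind_false ha]; ring
  rw [sum_congr rfl fun a _ => sum_congr rfl fun b _ => h1 a b]
  simp only [sum_sub_distrib]
  congr 1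
  · unfold deg
    rw [sq, sum_mul_sum]
  · unfold deg
    refine sum_congr rfl fun a _ => ?_
    rw [← mul_sum, sum_ite_eq univ a (fun _ => (1 : ℝ)), if_pos (mem_univ _), mul_one]

/-- the ordered triples of vertices of one class which do not belong to `T` -/
noncomputable def miss (T : Finset (Finset (Fin n))) (c : Fin n → Fin r) (i : Fin r) : ℝ :=
  ∑ x : Fin n, ∑ y : Fin n, ∑ z : Fin n,
    ind (c x = i ∧ c y = i ∧ c z = i ∧ x ≠ y ∧ x ≠ z ∧ y ≠ z ∧ ({x, y, z} : Finset (Fin n)) ∉ T)

/-- the size of a class -/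
noncomputable def size (c : Fin n → Fin r) (i : Fin r) : ℝ := ∑ x, ind (c x = i)

theorem inside (T : Finset (Finset (Fin n))) (c : Fin n → Fin r) (i : Fin r) :
    ∑ x : Fin n, ∑ y : Fin n, ∑ z : Fin n,
      ind (c x = i ∧ c y = i ∧ c z = i ∧ x ≠ y ∧ x ≠ z ∧ y ≠ z ∧ ({x, y, z} : Finset (Fin n)) ∈ T) =
    size c i ^ 3 - 3 * size c i ^ 2 + 2 * size c i - miss T c i := by
  have h1 := distinct_sum (fun x => ind (c x = i))
  have h2 : ∑ x, ind (c x = i) ^ 2 = size c i := by
    unfold size
    exact sum_congr rfl fun x _ => ind_sq _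
  have h3 : ∑ x, ind (c x = i) ^ 3 = size c i := by
    unfold size
    refine sum_congr rfl fun x _ => ?_
    unfold ind
    split_ifs <;> norm_num
  rw [h2, h3] at h1
  have h4 : ∑ x : Fin n, ind (c x = i) = size c i := rfl
  rw [h4] at h1
  have h5 : size c i ^ 3 - 3 * size c i ^ 2 + 2 * size c i =
      size c i ^ 3 - 3 * size c i * size c i + 2 * size c i := by ring
  rw [h5, ← h1]
  unfold miss
  rw [← sum_sub_distrib]
  refine sum_congr rfl fun x _ => ?_
  rw [← sum_sub_distrib]
  refine sum_congr rfl fun y _ => ?_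
  rw [← sum_sub_distrib]
  refine sum_congr rfl fun z _ => ?_
  by_cases hx : c x = i
  swap
  · have h0 : ∀ R : Prop, ind (c x = i ∧ R) = 0 := fun R => ind_false fun h => hx h.1
    rw [h0, h0, ind_false hx]; ring
  by_cases hy : c y = i
  swap
  · have h0 : ∀ R : Prop, ind (c x = i ∧ c y = i ∧ R) = 0 := fun R => ind_false fun h => hy h.2.1
    rw [h0, h0, ind_false hy]; ring
  by_cases hz : c z = i
  swap
  · have h0 : ∀ R : Prop, ind (c x = i ∧ c y = i ∧ c z = i ∧ R) = 0 :=
      fun R => ind_false fun h => hz h.2.2.1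
    rw [h0, h0, ind_false hz]; ring
  rw [ind_true hx, ind_true hy, ind_true hz]
  have hno : ∀ R : Prop, (x = y ∨ x = z ∨ y = z) → ind (c x = i ∧ c y = i ∧ c z = i ∧ x ≠ y ∧
      x ≠ z ∧ y ≠ z ∧ R) = 0 := by
    intro R h
    apply ind_false
    rintro ⟨-, -, -, h1, h2, h3, -⟩
    tauto
  by_cases hxy : x = y
  · rw [hno _ (Or.inl hxy), hno _ (Or.inl hxy), if_pos hxy]
    by_cases hxz : x = z
    · rw [if_pos hxz, if_pos (hxy ▸ hxz), if_pos ⟨hxy, hxz⟩]; norm_num
    · rw [if_neg hxz, if_neg (fun h => hxz (hxy.trans h)), if_neg (fun h => hxz h.2)]; norm_num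
  by_cases hxz : x = z
  · rw [hno _ (Or.inr (Or.inl hxz)), hno _ (Or.inr (Or.inl hxz)), if_neg hxy,
      if_pos hxz, if_neg (fun h => hxy (hxz.trans h.symm)), if_neg (fun h => hxy h.1)]
    norm_num
  by_cases hyz : y = z
  · rw [hno _ (Or.inr (Or.inr hyz)), hno _ (Or.inr (Or.inr hyz)), if_neg hxy,
      if_neg hxz, if_pos hyz, if_neg (fun h => hxy h.1)]
    norm_num
  rw [if_neg hxy, if_neg hxz, if_neg hyz, if_neg (fun h => hxy h.1)]
  have hyes : ∀ R : Prop, ind (c x = i ∧ c y = i ∧ c z = i ∧ x ≠ y ∧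
      x ≠ z ∧ y ≠ z ∧ R) = ind R := by
    intro R
    apply ind_congr
    constructor
    · rintro ⟨-, -, -, -, -, -, h⟩
      exact h
    · intro h
      exact ⟨hx, hy, hz, hxy, hxz, hyz, h⟩
  rw [hyes, hyes]
  by_cases hTm : ({x, y, z} : Finset (Fin n)) ∈ T
  · rw [ind_true hTm, ind_false (not_not.2 hTm)]
    norm_num
  · rw [ind_false hTm, ind_true hTm]
    norm_num

end Pool.Agent.Zk14.OW
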