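import Pool.Agent.Zk14.OW.Arc

/-!
# The triples inside a class, and the general inequality
-/

set_option autoImplicit false
open Finset
open scoped Classical

namespace Pool.Agent.Zk14.OW

variable {n r : ℕ} {T : Finset (Finset (Fin n))} {c : Fin n → Fin r}

/-- the out-neighbourhood -/
noncomputable def outN (T : Finset (Finset (Fin n))) (c : Fin n → Fin r) (x : Fin n) :
    Finset (Fin n) := univ.filter fun y => arc T c x y

theorem mem_outN {x y : Fin n} : y ∈ outN T c x ↔ arc T c x y := by
  unfold outN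
  rw [mem_filter]
  simp

theorem deg_eq (x : Fin n) : deg T c x = ((outN T c x).card : ℝ) := sum_ind _

theorem deg_nonneg (x : Fin n) : 0 ≤ deg T c x := sum_nonneg fun _ _ => ind_nonneg _

theorem size_eq (i : Fin r) : size c i = ((univ.filter fun x => c x = i).card : ℝ) := sum_ind _

theorem size_nonneg (i : Fin r) : 0 ≤ size c i := sum_nonneg fun _ _ => ind_nonneg _

theorem sum_size : ∑ i, size c i = (n : ℝ) := by
  unfold size
  rw [sum_comm]
  have : ∀ x : Fin n, ∑ i, ind (c x = i) = 1 := by
    intro x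
    rw [sum_eq_single (c x)]
    · exact ind_true rfl
    · intro i _ hi
      exact ind_false (Ne.symm hi)
    · simp
  rw [sum_congr rfl fun x _ => this x]
  simp

theorem disj (hT : Cov T) {i : Fin r} {x y z : Fin n} (hx : c x = i) (hy : c y = i) (hz : c z = i)
    (hxy : x ≠ y) (hxz : x ≠ z) (hyz : y ≠ z) (h : ({x, y, z} : Finset (Fin n)) ∉ T) :
    Disjoint (outN T c x) (outN T c y) := by
  rw [disjoint_left]
  intro w hw hw'
  rw [mem_outN] at hw hw'
  have hxw : x ≠ w := fun h => hw.1 (h ▸ rfl)
  have hyw : y ≠ w := fun h => hw'.1 (h ▸ rfl)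
  have hzw : z ≠ w := by
    rintro rfl
    exact hw.1 (hx.trans hz.symm)
  exact not_uncovered hT hxy hxz hxw hyz hyw hzw h
    (arc_not hw (Ne.symm hxy) (hy.trans hx.symm)) (arc_not hw (Ne.symm hxz) (hz.trans hx.symm))
    (arc_not hw' (Ne.symm hyz) (hz.trans hy.symm))

theorem clamp (b : ℝ) : (1 - min 1 (max 0 b)) ^ 2 ≤ (1 - b) ^ 2 := by
  rcases le_total b 0 with h | h
  · rw [max_eq_left h, min_eq_right (by norm_num : (0 : ℝ) ≤ 1)]
    nlinarith
  · rw [max_eq_right h]
    rcases le_total 1 b with h1 | h1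
    · rw [min_eq_left h1]
      nlinarith [sq_nonneg (1 - b)]
    · rw [min_eq_right h1]

/-- **The class lemma.** -/
theorem miss_le (hT : Cov T) (i : Fin r) (hs : 3 * size c i ≤ n) :
    miss T c i ≤ 5 / 2 * ∑ x, ind (c x = i) * ((n : ℝ) / 3 - deg T c x) ^ 2 := by
  obtain ⟨s, hse⟩ : ∃ s, s = size c i := ⟨_, rfl⟩
  rw [← hse] at hs
  have hs0 : 0 ≤ s := by rw [hse]; exact size_nonneg i
  have hR0 : 0 ≤ 5 / 2 * ∑ x, ind (c x = i) * ((n : ℝ) / 3 - deg T c x) ^ 2 :=
    mul_nonneg (by norm_num) (sum_nonneg fun x _ => mul_nonneg (ind_nonneg _) (sq_nonneg _))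
  rcases hs0.eq_or_lt with h0 | hspos
  · -- empty class
    have hall : ∀ x, c x ≠ i := by
      intro x hx
      have h1 : ind (c x = i) ≤ size c i := by
        unfold size
        exact single_le_sum (f := fun x => ind (c x = i)) (fun _ _ => ind_nonneg _) (mem_univ x)
      rw [ind_true hx, ← hse, ← h0] at h1
      linarith
    have h2 : miss T c i = 0 := by
      unfold miss
      exact sum_eq_zero fun x _ => sum_eq_zero fun y _ => sum_eq_zero fun z _ =>
        ind_false fun h => hall x h.1
    rw [h2]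
    exact hR0
  obtain ⟨adj, hadj⟩ : ∃ adj : Fin n → Fin n → Prop, adj = fun a b =>
    a ≠ b ∧ c a = i ∧ c b = i ∧ Disjoint (outN T c a) (outN T c b) := ⟨_, rfl⟩
  obtain ⟨β, hβ⟩ : ∃ β : Fin n → ℝ, β = fun a => (deg T c a - ((n : ℝ) / 3 - s)) / s := ⟨_, rfl⟩
  obtain ⟨x, hx⟩ : ∃ x : Fin n → ℝ, x = fun a =>
    if c a = i then (min 1 (max 0 (β a))) / 2 else 0 := ⟨_, rfl⟩
  obtain ⟨p, hp⟩ : ∃ p : Fin n → ℝ, p = fun a => ind (c a = i) / s := ⟨_, rfl⟩
  have hx0 : ∀ a, 0 ≤ x a := by
    intro a
    rw [hx]
    dsimp only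
    split_ifs
    · have : (0 : ℝ) ≤ min 1 (max 0 (β a)) := le_min (by norm_num) (le_max_left _ _)
      linarith
    · exact le_rfl
  have hx1 : ∀ a, x a ≤ 1 / 2 := by
    intro a
    rw [hx]
    dsimp only
    split_ifs
    · have : min 1 (max 0 (β a)) ≤ (1 : ℝ) := min_le_left _ _
      linarith
    · norm_num
  have hcl : ∀ K : Finset (Fin n), (∀ a ∈ K, ∀ b ∈ K, a ≠ b → adj a b) → ∑ a ∈ K, x a ≤ 1 := by
    intro K hK
    obtain ⟨P, hP⟩ : ∃ P, P = K.filter fun a => 0 < x a := ⟨_, rfl⟩
    have e1 : ∑ a ∈ K, x a = ∑ a ∈ P, x a := by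
      rw [hP, sum_filter]
      refine sum_congr rfl fun a _ => ?_
      split_ifs with h
      · rfl
      · exact le_antisymm (not_lt.1 h) (hx0 a)
    rw [e1]
    by_cases hcard : P.card ≤ 2
    · calc ∑ a ∈ P, x a ≤ ∑ a ∈ P, (1 / 2 : ℝ) := sum_le_sum fun a _ => hx1 a
        _ = P.card * (1 / 2 : ℝ) := by rw [sum_const, nsmul_eq_mul]
        _ ≤ 2 * (1 / 2) := by
          apply mul_le_mul_of_nonneg_right _ (by norm_num)
          exact_mod_cast hcard
        _ = 1 := by norm_num
    · have h3 : (3 : ℝ) ≤ P.card := by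
        have : 3 ≤ P.card := by omega
        exact_mod_cast this
      have hPi : ∀ a ∈ P, c a = i ∧ x a ≤ β a / 2 := by
        intro a ha
        rw [hP, mem_filter] at ha
        have h4 : 0 < x a := ha.2
        rw [hx] at h4
        dsimp only at h4
        by_cases h5 : c a = i
        · refine ⟨h5, ?_⟩
          rw [if_pos h5] at h4
          rw [hx]
          dsimp only
          rw [if_pos h5]
          have h6 : min 1 (max 0 (β a)) ≤ max 0 (β a) := min_le_right _ _
          have h7 : 0 < β a := by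
            by_contra h8
            push Not at h8
            rw [max_eq_left h8, min_eq_right (by norm_num : (0 : ℝ) ≤ 1)] at h4
            norm_num at h4
          rw [max_eq_right h7.le] at h6 ⊢
          linarith
        · rw [if_neg h5] at h4
          exact absurd h4 (lt_irrefl _)
      have hPK : P ⊆ K := by rw [hP]; exact filter_subset _ _
      have hdisj : ((P : Set (Fin n))).PairwiseDisjoint (outN T c) := by
        intro a ha b hb hab
        have := hK a (hPK ha) b (hPK hb) hab
        rw [hadj] at this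
        exact this.2.2.2
      have hsum : ∑ a ∈ P, deg T c a ≤ n - s := by
        have h4 : ∑ a ∈ P, deg T c a = ((P.biUnion (outN T c)).card : ℝ) := by
          rw [card_biUnion fun a ha b hb hab => hdisj ha hb hab]
          push_cast
          exact sum_congr rfl fun a _ => deg_eq a
        have h5 : P.biUnion (outN T c) ⊆ univ \ (univ.filter fun z => c z = i) := by
          intro w hw
          rw [mem_biUnion] at hw
          obtain ⟨a, ha, haw⟩ := hw
          rw [mem_outN] at haw
          rw [mem_sdiff, mem_filter]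
          refine ⟨mem_univ _, fun h => haw.1 ?_⟩
          rw [(hPi a ha).1, h.2]
        have h6 := card_le_card h5
        rw [card_sdiff_of_subset (filter_subset _ _), card_univ, Fintype.card_fin] at h6
        have h7 : (univ.filter fun z => c z = i).card ≤ n := by
          have := card_le_card (filter_subset (fun z => c z = i) (univ : Finset (Fin n)))
          rwa [card_univ, Fintype.card_fin] at this
        have h8 : ((P.biUnion (outN T c)).card : ℝ) ≤ n - (univ.filter fun z => c z = i).card := by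
          have : ((P.biUnion (outN T c)).card : ℝ) ≤
            ((n - (univ.filter fun z => c z = i).card : ℕ) : ℝ) := by exact_mod_cast h6
          rwa [Nat.cast_sub h7] at this
        rw [h4, hse, size_eq]
        exact h8
      calc ∑ a ∈ P, x a ≤ ∑ a ∈ P, β a / 2 := sum_le_sum fun a ha => (hPi a ha).2
        _ = (∑ a ∈ P, deg T c a - P.card * ((n : ℝ) / 3 - s)) / s / 2 := by
          rw [hβ]
          dsimp only
          rw [← sum_div, ← sum_div, sum_sub_distrib, sum_const, nsmul_eq_mul]
        _ ≤ (2 * s) / s / 2 := by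
          apply div_le_div_of_nonneg_right _ (by norm_num : (0 : ℝ) ≤ 2)
          apply div_le_div_of_nonneg_right _ hspos.le
          have h9 : 0 ≤ (n : ℝ) / 3 - s := by linarith
          nlinarith
        _ = 1 := by field_simp
  have hps : ∑ a, p a = 1 := by
    rw [hp]
    dsimp only
    rw [← sum_div]
    have : ∑ a : Fin n, ind (c a = i) = s := hse.symm
    rw [this, div_self hspos.ne']
  have hm := motzkin adj
    (fun a b h => by rw [hadj] at h ⊢; exact ⟨Ne.symm h.1, h.2.2.1, h.2.1, h.2.2.2.symm⟩)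
    (fun a h => by rw [hadj] at h; exact h.1 rfl) x hx0 hcl _ p
    (fun a => by rw [hp]; exact div_nonneg (ind_nonneg _) hspos.le) hps le_rfl
  have h1 : miss T c i ≤ s ^ 3 * triSum adj p := by
    unfold miss triSum
    rw [mul_sum]
    refine sum_le_sum fun a _ => ?_
    rw [mul_sum]
    refine sum_le_sum fun b _ => ?_
    rw [mul_sum]
    refine sum_le_sum fun d _ => ?_
    have e1 : s ^ 3 * (p a * p b * p d * tri adj a b d) =
        ind (c a = i) * ind (c b = i) * ind (c d = i) * tri adj a b d := by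
      rw [hp]
      dsimp only
      field_simp
    rw [e1]
    have htri0 : 0 ≤ tri adj a b d := by unfold tri; split_ifs <;> norm_num
    by_cases h : c a = i ∧ c b = i ∧ c d = i ∧ a ≠ b ∧ a ≠ d ∧ b ≠ d ∧
      ({a, b, d} : Finset (Fin n)) ∉ T
    · have ht : tri adj a b d = 1 := by
        obtain ⟨ha, hb, hd, hab, had, hbd, hn⟩ := h
        unfold tri
        rw [if_pos]
        rw [hadj]
        refine ⟨⟨hab, ha, hb, disj hT ha hb hd hab had hbd hn⟩,
          ⟨had, ha, hd, disj hT ha hd hb had hab (Ne.symm hbd) ?_⟩,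
          ⟨hbd, hb, hd, disj hT hb hd ha hbd (Ne.symm hab) (Ne.symm had) ?_⟩⟩
        · have : ({a, d, b} : Finset (Fin n)) = {a, b, d} := by
            ext w; simp only [mem_insert, mem_singleton]; tauto
          rw [this]; exact hn
        · have : ({b, d, a} : Finset (Fin n)) = {a, b, d} := by
            ext w; simp only [mem_insert, mem_singleton]; tauto
          rw [this]; exact hn
      rw [ind_true h, ind_true h.1, ind_true h.2.1, ind_true h.2.2.1, ht]
      norm_num
    · rw [ind_false h]
      exact mul_nonneg (mul_nonneg (mul_nonneg (ind_nonneg _) (ind_nonneg _)) (ind_nonneg _)) htri0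
  have h2 : s ^ 3 * (5 / 2 * ∑ a, p a * (1 - 2 * x a) ^ 2) ≤
      5 / 2 * ∑ a, ind (c a = i) * ((n : ℝ) / 3 - deg T c a) ^ 2 := by
    have e1 : s ^ 3 * (5 / 2 * ∑ a, p a * (1 - 2 * x a) ^ 2) =
        5 / 2 * ∑ a, s ^ 3 * (p a * (1 - 2 * x a) ^ 2) := by
      rw [mul_sum, mul_sum, mul_sum]
      exact sum_congr rfl fun a _ => by ring
    rw [e1]
    apply mul_le_mul_of_nonneg_left _ (by norm_num : (0 : ℝ) ≤ 5 / 2)
    refine sum_le_sum fun a _ => ?_
    by_cases ha : c a = i
    · have e2 : s ^ 3 * (p a * (1 - 2 * x a) ^ 2) =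
          s ^ 2 * (1 - min 1 (max 0 (β a))) ^ 2 := by
        rw [hp, hx]
        dsimp only
        rw [if_pos ha, ind_true ha]
        field_simp
        try ring
      have e3 : ((n : ℝ) / 3 - deg T c a) ^ 2 = s ^ 2 * (1 - β a) ^ 2 := by
        rw [hβ]
        dsimp only
        field_simp
        ring
      rw [e2, e3, ind_true ha, one_mul]
      exact mul_le_mul_of_nonneg_left (clamp _) (sq_nonneg _)
    · rw [hp]
      dsimp only
      rw [ind_false ha]
      simp
  calc miss T c i ≤ s ^ 3 * triSum adj p := h1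
    _ ≤ s ^ 3 * (5 / 2 * ∑ a, p a * (1 - 2 * x a) ^ 2) :=
      mul_le_mul_of_nonneg_left hm (by positivity)
    _ ≤ _ := h2

end Pool.Agent.Zk14.OW
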