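import Mathlib

/-!
# Coverings with a partition of the vertices: definitions

The vertices are `0, ..., n - 1`, and `c x` is the number of the class of the vertex `x`.
-/

set_option autoImplicit false
open Finset

namespace Pool.Agent.Zk14.OneWay

/-- `T` consists of triples, and every four vertices contain a triple of `T`. -/
def Covering {n : ℕ} (T : Finset (Finset (Fin n))) : Prop :=
  (∀ e ∈ T, e.card = 3) ∧ ∀ S : Finset (Fin n), S.card = 4 → ∃ e ∈ T, e ⊆ S

/-- The class number `i` of the partition. -/
def part {n r : ℕ} (c : Fin n → Fin r) (i : Fin r) : Finset (Fin n) :=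
  univ.filter fun x => c x = i

/-- `x` is attached to `y`: `{x, z, y}` is in `T` for another vertex `z` of the class of `x`. -/
def Attached {n r : ℕ} (T : Finset (Finset (Fin n))) (c : Fin n → Fin r) (x y : Fin n) : Prop :=
  ∃ z, z ≠ x ∧ c z = c x ∧ ({x, z, y} : Finset (Fin n)) ∈ T

open scoped Classical in
/-- The two-way pairs: pairs of vertices of different classes attached to each other, every pair
being counted once. -/
noncomputable def twoWay {n r : ℕ} (T : Finset (Finset (Fin n))) (c : Fin n → Fin r) :
    Finset (Fin n × Fin n) :=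
  univ.filter fun p => p.1 < p.2 ∧ c p.1 ≠ c p.2 ∧ Attached T c p.1 p.2 ∧ Attached T c p.2 p.1

open scoped Classical in
/-- The triples inside the classes with more than `n/3` vertices which are not in `T`. -/
noncomputable def holes {n r : ℕ} (T : Finset (Finset (Fin n))) (c : Fin n → Fin r) :
    Finset (Finset (Fin n)) :=
  univ.filter fun e => e.card = 3 ∧ e ∉ T ∧ ∃ i, n < 3 * (part c i).card ∧ e ⊆ part c i

/-- `R` is an orientation of the complete multipartite graph with the classes of `c`. -/
def IsOrientation {n r : ℕ} (c : Fin n → Fin r) (R : Fin n → Fin n → Prop) : Prop :=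
  ∀ x y, (R x y → c x ≠ c y) ∧ (c x ≠ c y → (R x y ↔ ¬ R y x))

/-- There is no directed four-cycle between two classes. -/
def NoFourCycle {n r : ℕ} (c : Fin n → Fin r) (R : Fin n → Fin n → Prop) : Prop :=
  ∀ a a' b b', c a = c a' → c b = c b' → ¬ (R a b ∧ R b a' ∧ R a' b' ∧ R b' a)

open scoped Classical in
/-- The Fon-der-Flaass covering of the orientation `R`: the triples inside one class and the triples
with a vertex which dominates the other two. -/
noncomputable def triples {n r : ℕ} (c : Fin n → Fin r) (R : Fin n → Fin n → Prop) :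
    Finset (Finset (Fin n)) :=
  univ.filter fun e => e.card = 3 ∧ ((∃ i, e ⊆ part c i) ∨ ∃ x ∈ e, ∀ y ∈ e, y ≠ x → R x y)

end Pool.Agent.Zk14.OneWay
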