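import Pool.Agent.Zk14.OW.MS

set_option autoImplicit false
open Finset

namespace Pool.Agent.Zk14.OW

variable {V : Type} [DecidableEq V]

/-- the inequality for a clique -/
theorem clique_ineq (K : Finset V) (p x : V → ℝ) (hp : ∀ a ∈ K, 0 < p a) (hx : ∀ a ∈ K, 0 ≤ x a)
    (hs : ∑ a ∈ K, p a = 1) (hX : ∑ a ∈ K, x a ≤ 1) :
    1 - 3 * ∑ a ∈ K, p a ^ 2 + 2 * ∑ a ∈ K, p a ^ 3 ≤ 5 / 2 * ∑ a ∈ K, p a * (1 - 2 * x a) ^ 2 := by
  have hG0 : ∀ L ⊆ K, 0 ≤ ∑ a ∈ L, p a * (1 - 2 * x a) ^ 2 := fun L hL =>
    sum_nonneg fun a ha => mul_nonneg (hp a (hL ha)).le (sq_nonneg _)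
  have hne : K.Nonempty := by
    rw [nonempty_iff_ne_empty]
    rintro rfl
    simp at hs
  obtain ⟨a, ha, hamax⟩ := K.exists_max_image p hne
  have e1 : ∀ f : V → ℝ, ∑ c ∈ K, f c = f a + ∑ c ∈ K.erase a, f c := fun f =>
    (add_sum_erase K f ha).symm
  rcases (K.erase a).eq_empty_or_nonempty with h1 | h1
  · have hG := hG0 K Subset.rfl
    rw [e1 p, h1, sum_empty, add_zero] at hs
    rw [e1 (fun c => p c ^ 2), e1 (fun c => p c ^ 3), h1, sum_empty, sum_empty, hs]
    linarith
  obtain ⟨b, hb, hbmax⟩ := (K.erase a).exists_max_image p h1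
  have e2 : ∀ f : V → ℝ, ∑ c ∈ K.erase a, f c = f b + ∑ c ∈ (K.erase a).erase b, f c := fun f =>
    (add_sum_erase _ f hb).symm
  have hbK : b ∈ K := mem_of_mem_erase hb
  obtain ⟨L, hL⟩ : ∃ L, L = (K.erase a).erase b := ⟨_, rfl⟩
  have hLK : L ⊆ K := by
    rw [hL]
    exact (erase_subset _ _).trans (erase_subset _ _)
  rw [← hL] at e2
  rcases L.eq_empty_or_nonempty with h2 | h2
  · have hG := hG0 K Subset.rfl
    rw [e1 p, e2 p, h2, sum_empty, add_zero] at hs
    rw [e1 (fun c => p c ^ 2), e1 (fun c => p c ^ 3), e2 (fun c => p c ^ 2),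
      e2 (fun c => p c ^ 3), h2, sum_empty, sum_empty]
    have hb' : p b = 1 - p a := by linarith
    have h3 : 1 - 3 * (p a ^ 2 + (p b ^ 2 + 0)) + 2 * (p a ^ 3 + (p b ^ 3 + 0)) = 0 := by
      rw [hb']; ring
    rw [h3]
    linarith
  obtain ⟨c, hc, hcmax⟩ := L.exists_max_image p h2
  have hpa := hp a ha
  have hpb := hp b hbK
  have hpc := hp c (hLK hc)
  have hL0 : ∀ d ∈ L, 0 ≤ p d := fun d hd => (hp d (hLK hd)).le
  have hcr : p c ≤ ∑ d ∈ L, p d := single_le_sum hL0 hc
  have hca : p c ≤ p a := hamax c (hLK hc)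
  have hcb : p c ≤ p b := hbmax c (by rw [hL] at hc; exact mem_of_mem_erase hc)
  have hsum : p a + p b + ∑ d ∈ L, p d = 1 := by rw [e1 p, e2 p] at hs; linarith
  have hXs : x a + x b + ∑ d ∈ L, x d ≤ 1 := by rw [e1 x, e2 x] at hX; linarith
  have hxa := hx a ha
  have hxb := hx b hbK
  rw [e1 (fun c => p c ^ 2), e1 (fun c => p c ^ 3), e2 (fun c => p c ^ 2),
      e2 (fun c => p c ^ 3), e1 (fun c => p c * (1 - 2 * x c) ^ 2),
      e2 (fun c => p c * (1 - 2 * x c) ^ 2)]
  obtain ⟨r, hr⟩ : ∃ r, r = ∑ d ∈ L, p d := ⟨_, rfl⟩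
  obtain ⟨m, hm⟩ : ∃ m, m = p c := ⟨_, rfl⟩
  obtain ⟨A, hA⟩ : ∃ A, A = m ^ 2 / p a + m ^ 2 / p b := ⟨_, rfl⟩
  have hm0 : 0 < m := by rw [hm]; exact hpc
  have hr0 : 0 < r := by rw [hr]; linarith
  have hA0 : 0 < A := by rw [hA]; positivity
  have hq2 : m ^ 2 ≤ ∑ d ∈ L, p d ^ 2 := by
    rw [hm]
    exact single_le_sum (f := fun d => p d ^ 2) (fun d _ => sq_nonneg _) hc
  have hq3 : ∑ d ∈ L, p d ^ 3 ≤ r * ∑ d ∈ L, p d ^ 2 := by
    rw [mul_sum]
    refine sum_le_sum fun d hd => ?_
    have h3 : p d ≤ r := by rw [hr]; exact single_le_sum hL0 hd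
    calc p d ^ 3 = p d * p d ^ 2 := by ring
      _ ≤ r * p d ^ 2 := mul_le_mul_of_nonneg_right h3 (sq_nonneg _)
  obtain ⟨G, hG⟩ : ∃ G, G = p a * (1 - 2 * x a) ^ 2 + (p b * (1 - 2 * x b) ^ 2 +
    ∑ d ∈ L, p d * (1 - 2 * x d) ^ 2) := ⟨_, rfl⟩
  -- the weighted sum
  obtain ⟨W, hW⟩ : ∃ W, W = m * (1 - 2 * x a) + m * (1 - 2 * x b) +
    ∑ d ∈ L, p d * (1 - 2 * x d) := ⟨_, rfl⟩
  have hWr : r ≤ W := by
    have h3 : ∑ d ∈ L, p d * (1 - 2 * x d) ≥ r - 2 * (m * ∑ d ∈ L, x d) := by
      rw [hr, mul_sum, mul_sum, ← sum_sub_distrib]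
      refine sum_le_sum fun d hd => ?_
      have h4 : p d ≤ m := by rw [hm]; exact hcmax d hd
      have h5 : p d * x d ≤ m * x d := mul_le_mul_of_nonneg_right h4 (hx d (hLK hd))
      linarith
    rw [hW]
    nlinarith
  have hGW : ∀ θ : ℝ, 0 ≤ G - 2 * θ * W + θ ^ 2 * (r + A) := by
    intro θ
    have h3 : ∀ u g : ℝ, 0 < u → 0 ≤ u * g ^ 2 - 2 * θ * (m * g) + θ ^ 2 * (m ^ 2 / u) := by
      intro u g hu
      have : u * g ^ 2 - 2 * θ * (m * g) + θ ^ 2 * (m ^ 2 / u) = (u * g - θ * m) ^ 2 / u := by
        field_simp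
        ring
      rw [this]
      positivity
    have h4 := h3 (p a) (1 - 2 * x a) hpa
    have h5 := h3 (p b) (1 - 2 * x b) hpb
    have h6 : 0 ≤ ∑ d ∈ L, p d * (1 - 2 * x d) ^ 2 - 2 * θ * ∑ d ∈ L, p d * (1 - 2 * x d) +
        θ ^ 2 * ∑ d ∈ L, p d := by
      rw [mul_sum, mul_sum, ← sum_sub_distrib, ← sum_add_distrib]
      refine sum_nonneg fun d hd => ?_
      have : p d * (1 - 2 * x d) ^ 2 - 2 * θ * (p d * (1 - 2 * x d)) + θ ^ 2 * p d =
        p d * (1 - 2 * x d - θ) ^ 2 := by ring
      rw [this]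
      exact mul_nonneg (hL0 d hd) (sq_nonneg _)
    rw [← hr] at h6
    rw [hG, hW, hA]
    nlinarith
  have hrA : 0 < r + A := by positivity
  have hfin : r ^ 2 ≤ G * (r + A) := by
    have h3 := hGW (r / (r + A))
    have h4 : 2 * (r / (r + A)) * r ≤ 2 * (r / (r + A)) * W :=
      mul_le_mul_of_nonneg_left hWr (by positivity)
    have h5 : (r / (r + A)) ^ 2 * (r + A) = r ^ 2 / (r + A) := by
      field_simp
    have h6 : 2 * (r / (r + A)) * r = 2 * (r ^ 2 / (r + A)) := by
      field_simp
    have h7 : r ^ 2 / (r + A) ≤ G := by linarith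
    rwa [div_le_iff₀ hrA] at h7
  have := numeric (p1 := p a) (p2 := p b) (r := r) (m := m) (A := A)
    (q2 := ∑ d ∈ L, p d ^ 2) (q3 := ∑ d ∈ L, p d ^ 3) (G := G) hm0 (hm ▸ hca) (hm ▸ hcb)
    (by rw [hm, hr]; exact hcr) (by rw [hr]; exact hsum) hA hq2 hq3 hfin
  rw [← hG]
  linarith

variable [Fintype V]

/-- the indicator of a triangle -/
noncomputable def tri (adj : V → V → Prop) (a b c : V) : ℝ :=
  open Classical in if adj a b ∧ adj a c ∧ adj b c then 1 else 0

/-- the weight of the triangles -/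
noncomputable def triSum (adj : V → V → Prop) (p : V → ℝ) : ℝ :=
  ∑ a, ∑ b, ∑ c, p a * p b * p c * tri adj a b c

theorem distinct_sum (p : V → ℝ) :
    ∑ a, ∑ b, ∑ c, p a * p b * p c *
      ((1 : ℝ) - (if a = b then 1 else 0) - (if a = c then 1 else 0) - (if b = c then 1 else 0) +
        2 * (if a = b ∧ a = c then 1 else 0)) =
    (∑ a, p a) ^ 3 - 3 * (∑ a, p a) * (∑ a, p a ^ 2) + 2 * ∑ a, p a ^ 3 := by
  have h1 : ∑ a, ∑ b, ∑ c, p a * p b * p c = (∑ a, p a) ^ 3 := by
    have e1 : ∀ a, ∑ b, ∑ c, p a * p b * p c = p a * ((∑ a, p a) * (∑ a, p a)) := by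
      intro a
      have e2 : ∀ b, ∑ c, p a * p b * p c = p a * (p b * ∑ c, p c) := by
        intro b
        rw [← mul_sum]; ring
      rw [sum_congr rfl fun b _ => e2 b, ← mul_sum, ← sum_mul]
    rw [sum_congr rfl fun a _ => e1 a, ← sum_mul]
    ring
  have h2 : ∑ a, ∑ b, ∑ c, p a * p b * p c * (if a = b then (1 : ℝ) else 0) =
      (∑ a, p a) * (∑ a, p a ^ 2) := by
    rw [mul_comm, sum_mul]
    refine sum_congr rfl fun a _ => ?_
    rw [sum_eq_single a]
    · rw [mul_sum]
      refine sum_congr rfl fun c _ => ?_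
      rw [if_pos rfl]; ring
    · intro b _ hb
      refine sum_eq_zero fun c _ => ?_
      rw [if_neg (Ne.symm hb), mul_zero]
    · simp
  have h3 : ∑ a, ∑ b, ∑ c, p a * p b * p c * (if a = c then (1 : ℝ) else 0) =
      (∑ a, p a) * (∑ a, p a ^ 2) := by
    rw [mul_comm, sum_mul]
    refine sum_congr rfl fun a _ => ?_
    rw [mul_sum]
    refine sum_congr rfl fun b _ => ?_
    rw [sum_eq_single a]
    · rw [if_pos rfl]; ring
    · intro c _ hc
      rw [if_neg (Ne.symm hc), mul_zero]
    · simp
  have h4 : ∑ a, ∑ b, ∑ c, p a * p b * p c * (if b = c then (1 : ℝ) else 0) =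
      (∑ a, p a) * (∑ a, p a ^ 2) := by
    rw [sum_mul]
    refine sum_congr rfl fun a _ => ?_
    rw [mul_sum]
    refine sum_congr rfl fun b _ => ?_
    rw [sum_eq_single b]
    · rw [if_pos rfl]; ring
    · intro c _ hc
      rw [if_neg (Ne.symm hc), mul_zero]
    · simp
  have h5 : ∑ a, ∑ b, ∑ c, p a * p b * p c * (if a = b ∧ a = c then (1 : ℝ) else 0) =
      ∑ a, p a ^ 3 := by
    refine sum_congr rfl fun a _ => ?_
    rw [sum_eq_single a]
    · rw [sum_eq_single a]
      · rw [if_pos ⟨rfl, rfl⟩]; ring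
      · intro c _ hc
        rw [if_neg (fun h => hc h.2.symm), mul_zero]
      · simp
    · intro b _ hb
      refine sum_eq_zero fun c _ => ?_
      rw [if_neg (fun h => hb h.1.symm), mul_zero]
    · simp
  calc _ = ∑ a, ∑ b, ∑ c, (p a * p b * p c - p a * p b * p c * (if a = b then (1 : ℝ) else 0) -
        p a * p b * p c * (if a = c then (1 : ℝ) else 0) -
        p a * p b * p c * (if b = c then (1 : ℝ) else 0) +
        2 * (p a * p b * p c * (if a = b ∧ a = c then (1 : ℝ) else 0))) := by
        refine sum_congr rfl fun a _ => sum_congr rfl fun b _ => sum_congr rfl fun c _ => ?_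
        ring
    _ = _ := by
        have h6 : ∑ a, ∑ b, ∑ c, 2 * (p a * p b * p c *
            (if a = b ∧ a = c then (1 : ℝ) else 0)) = 2 * ∑ a, p a ^ 3 := by
          rw [← h5, mul_sum]
          refine sum_congr rfl fun a _ => ?_
          rw [mul_sum]
          refine sum_congr rfl fun b _ => ?_
          rw [mul_sum]
        simp only [sum_add_distrib, sum_sub_distrib]
        rw [h1, h2, h3, h4, h6]
        ring

/-- **Motzkin–Straus for triangles with vertex weights.** -/
theorem motzkin (adj : V → V → Prop) (hsym : ∀ a b, adj a b → adj b a) (hirr : ∀ a, ¬ adj a a)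
    (x : V → ℝ) (hx : ∀ a, 0 ≤ x a)
    (hcl : ∀ K : Finset V, (∀ a ∈ K, ∀ b ∈ K, a ≠ b → adj a b) → ∑ a ∈ K, x a ≤ 1) :
    ∀ (k : ℕ) (p : V → ℝ), (∀ a, 0 ≤ p a) → ∑ a, p a = 1 →
      (univ.filter fun a => p a ≠ 0).card ≤ k →
      triSum adj p ≤ 5 / 2 * ∑ a, p a * (1 - 2 * x a) ^ 2 := by
  intro k
  induction k with
  | zero =>
    intro p hp hs hk
    exfalso
    have h1 : univ.filter (fun a => p a ≠ 0) = ∅ := card_eq_zero.1 (Nat.le_zero.1 hk)
    have h2 : ∀ a, p a = 0 := by
      intro a
      by_contra h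
      have : a ∈ univ.filter (fun a => p a ≠ 0) := mem_filter.2 ⟨mem_univ _, h⟩
      rw [h1] at this
      simp at this
    rw [sum_congr rfl fun a _ => h2 a] at hs
    simp at hs
  | succ k ih =>
    intro p hp hs hk
    by_cases hclq : ∀ a b, p a ≠ 0 → p b ≠ 0 → a ≠ b → adj a b
    · -- clique
      obtain ⟨K, hK⟩ : ∃ K, K = univ.filter (fun a => p a ≠ 0) := ⟨_, rfl⟩
      have hKm : ∀ a, a ∈ K ↔ p a ≠ 0 := by intro a; rw [hK, mem_filter]; simp
      have hred : ∀ f : V → ℝ, (∀ a, p a = 0 → f a = 0) → ∑ a ∈ K, f a = ∑ a, f a := by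
        intro f hf
        refine sum_subset (subset_univ _) fun a _ ha => hf a ?_
        by_contra h
        exact ha ((hKm a).2 h)
      have h1 := clique_ineq K p x
        (fun a ha => lt_of_le_of_ne (hp a) (Ne.symm ((hKm a).1 ha)))
        (fun a _ => hx a) (by rw [hred p (fun a h => h), hs])
        (hcl K fun a ha b hb hab => hclq a b ((hKm a).1 ha) ((hKm b).1 hb) hab)
      rw [hred (fun a => p a ^ 2) (fun a h => by simp [h]),
        hred (fun a => p a ^ 3) (fun a h => by simp [h]),
        hred (fun a => p a * (1 - 2 * x a) ^ 2) (fun a h => by simp [h])] at h1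
      have h2 : triSum adj p = (∑ a, p a) ^ 3 - 3 * (∑ a, p a) * (∑ a, p a ^ 2) +
          2 * ∑ a, p a ^ 3 := by
        rw [← distinct_sum p]
        unfold triSum
        refine sum_congr rfl fun a _ => sum_congr rfl fun b _ => sum_congr rfl fun c _ => ?_
        by_cases ha : p a = 0
        · rw [ha]; ring
        by_cases hb : p b = 0
        · rw [hb]; ring
        by_cases hc : p c = 0
        · rw [hc]; ring
        have hcase : tri adj a b c = (1 : ℝ) - (if a = b then 1 else 0) -
            (if a = c then 1 else 0) - (if b = c then 1 else 0) +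
            2 * (if a = b ∧ a = c then 1 else 0) := by
          unfold tri
          by_cases hab : a = b
          · have hn : ¬ (adj a b ∧ adj a c ∧ adj b c) := by
              rintro ⟨h, -, -⟩
              rw [hab] at h
              exact hirr b h
            rw [if_neg hn, if_pos hab]
            by_cases hac : a = c
            · rw [if_pos hac, if_pos (hab ▸ hac), if_pos ⟨hab, hac⟩]; norm_num
            · rw [if_neg hac, if_neg (hab ▸ hac), if_neg (fun h => hac h.2)]; norm_num
          · by_cases hac : a = c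
            · have hn : ¬ (adj a b ∧ adj a c ∧ adj b c) := by
                rintro ⟨-, h, -⟩
                rw [hac] at h
                exact hirr c h
              have hbc : ¬ b = c := fun h => hab (hac.trans h.symm)
              rw [if_neg hn, if_neg hab, if_pos hac, if_neg hbc, if_neg (fun h => hab h.1)]
              norm_num
            · by_cases hbc : b = c
              · have hn : ¬ (adj a b ∧ adj a c ∧ adj b c) := by
                  rintro ⟨-, -, h⟩
                  rw [hbc] at h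
                  exact hirr c h
                rw [if_neg hn, if_neg hab, if_neg hac, if_pos hbc, if_neg (fun h => hab h.1)]
                norm_num
              · rw [if_pos ⟨hclq a b ha hb hab, hclq a c ha hc hac, hclq b c hb hc hbc⟩,
                  if_neg hab, if_neg hac, if_neg hbc, if_neg (fun h => hab h.1)]
                norm_num
        rw [hcase]
      rw [h2, hs]
      linarith
    · -- transfer
      push Not at hclq
      obtain ⟨a, b, ha, hb, hab, hn⟩ := hclq
      have hn' : ¬ adj b a := fun h => hn (hsym _ _ h)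
      obtain ⟨D, hD⟩ : ∃ D : V → ℝ, D = fun v => (if v = a then (1 : ℝ) else 0) -
        (if v = b then 1 else 0) := ⟨_, rfl⟩
      have hDa : D a = 1 := by rw [hD]; simp [hab]
      have hDb : D b = -1 := by rw [hD]; simp [Ne.symm hab]
      have hD0 : ∀ v, v ≠ a → v ≠ b → D v = 0 := by
        intro v h1 h2
        rw [hD]; simp [h1, h2]
      have hDs : ∑ v, D v = 0 := by
        rw [hD]; simp
      have hDD : ∀ u v, D u ≠ 0 → D v ≠ 0 → ¬ adj u v := by
        intro u v hu hv
        have h1 : u = a ∨ u = b := by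
          by_contra h
          push Not at h
          exact hu (hD0 u h.1 h.2)
        have h2 : v = a ∨ v = b := by
          by_contra h
          push Not at h
          exact hv (hD0 v h.1 h.2)
        rcases h1 with rfl | rfl <;> rcases h2 with rfl | rfl
        · exact hirr _
        · exact hn
        · exact hn'
        · exact hirr _
      -- the objective along the line
      obtain ⟨Λ, hΛ⟩ : ∃ Λ : ℝ, Λ = ∑ u, ∑ v, ∑ w,
        (D u * p v * p w + p u * D v * p w + p u * p v * D w) * tri adj u v w := ⟨_, rfl⟩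
      obtain ⟨Γ, hΓ⟩ : ∃ Γ : ℝ, Γ = ∑ u, D u * (1 - 2 * x u) ^ 2 := ⟨_, rfl⟩
      have hline : ∀ t : ℝ, triSum adj (fun v => p v + t * D v) = triSum adj p + t * Λ := by
        intro t
        rw [hΛ, mul_sum]
        unfold triSum
        rw [← sum_add_distrib]
        refine sum_congr rfl fun u _ => ?_
        rw [mul_sum, ← sum_add_distrib]
        refine sum_congr rfl fun v _ => ?_
        rw [mul_sum, ← sum_add_distrib]
        refine sum_congr rfl fun w _ => ?_
        by_cases hT : adj u v ∧ adj u w ∧ adj v w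
        · have h1 : D u * D v = 0 := by
            by_contra h
            exact hDD u v (left_ne_zero_of_mul h) (right_ne_zero_of_mul h) hT.1
          have h2 : D u * D w = 0 := by
            by_contra h
            exact hDD u w (left_ne_zero_of_mul h) (right_ne_zero_of_mul h) hT.2.1
          have h3 : D v * D w = 0 := by
            by_contra h
            exact hDD v w (left_ne_zero_of_mul h) (right_ne_zero_of_mul h) hT.2.2
          have h4 : (p u + t * D u) * (p v + t * D v) * (p w + t * D w) =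
              p u * p v * p w + t * (D u * p v * p w + p u * D v * p w + p u * p v * D w) +
                t ^ 2 * ((D u * D v) * p w + (D u * D w) * p v + (D v * D w) * p u) +
                t ^ 3 * ((D u * D v) * D w) := by ring
          rw [h4, h1, h2, h3]
          ring
        · have h1 : tri adj u v w = 0 := by
            unfold tri
            rw [if_neg hT]
          rw [h1]; ring
      have hline2 : ∀ t : ℝ, ∑ v, (p v + t * D v) * (1 - 2 * x v) ^ 2 =
          ∑ v, p v * (1 - 2 * x v) ^ 2 + t * Γ := by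
        intro t
        rw [hΓ, mul_sum, ← sum_add_distrib]
        exact sum_congr rfl fun v _ => by ring
      have hsumt : ∀ t : ℝ, ∑ v, (p v + t * D v) = 1 := by
        intro t
        rw [sum_add_distrib, ← mul_sum, hDs, hs]
        ring
      -- apply the induction hypothesis at the end point
      have hend : ∀ t : ℝ, (∀ v, 0 ≤ p v + t * D v) → (∃ z, p z ≠ 0 ∧ p z + t * D z = 0) →
          triSum adj p + t * Λ ≤ 5 / 2 * (∑ v, p v * (1 - 2 * x v) ^ 2 + t * Γ) := by
        intro t h0 hz
        obtain ⟨z, hz1, hz2⟩ := hz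
        have h1 := ih (fun v => p v + t * D v) h0 (hsumt t) (by
          have h2 : (univ.filter fun v => p v + t * D v ≠ 0) ⊂ univ.filter fun v => p v ≠ 0 := by
            rw [ssubset_iff_of_subset]
            · refine ⟨z, mem_filter.2 ⟨mem_univ _, hz1⟩, fun h => ?_⟩
              exact (mem_filter.1 h).2 hz2
            · intro v hv
              rw [mem_filter] at hv ⊢
              refine ⟨mem_univ _, fun h => hv.2 ?_⟩
              have h3 : v ≠ a := fun h' => ha (h' ▸ h)
              have h4 : v ≠ b := fun h' => hb (h' ▸ h)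
              rw [h, hD0 v h3 h4]
              ring
          have h5 := card_lt_card h2
          omega)
        rwa [hline, hline2] at h1
      rcases le_total 0 (Λ - 5 / 2 * Γ) with hpos | hneg
      · have h1 := hend (p b) (by
          intro v
          by_cases h1 : v = a
          · rw [h1, hDa]
            have := hp a
            have := hp b
            linarith
          by_cases h2 : v = b
          · rw [h2, hDb]
            linarith
          rw [hD0 v h1 h2]
          have := hp v
          linarith) ⟨b, hb, by rw [hDb]; ring⟩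
        have h2 : 0 ≤ p b * (Λ - 5 / 2 * Γ) := mul_nonneg (hp b) hpos
        nlinarith
      · have h1 := hend (-(p a)) (by
          intro v
          by_cases h1 : v = a
          · rw [h1, hDa]
            linarith
          by_cases h2 : v = b
          · rw [h2, hDb]
            have := hp a
            have := hp b
            linarith
          rw [hD0 v h1 h2]
          have := hp v
          linarith) ⟨a, ha, by rw [hDa]; ring⟩
        have h2 : p a * (Λ - 5 / 2 * Γ) ≤ 0 := mul_nonpos_of_nonneg_of_nonpos (hp a) hneg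
        nlinarith

end Pool.Agent.Zk14.OW
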