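import Pool.Agent.Zk14.OW.Cls

/-!
# The general inequality and the case of small classes
-/

set_option autoImplicit false
open Finset
open scoped Classical

namespace Pool.Agent.Zk14.OW

variable {n r : ℕ} {T : Finset (Finset (Fin n))} {c : Fin n → Fin r}

/-- source cherry -/
def Che (T : Finset (Finset (Fin n))) (c : Fin n → Fin r) (v a b : Fin n) : Prop :=
  arc T c v a ∧ arc T c v b ∧ a ≠ b ∧ ({v, a, b} : Finset (Fin n)) ∈ T

/-- the other members of `T`: neither inside a class nor source cherries -/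
def Ext (T : Finset (Finset (Fin n))) (c : Fin n → Fin r) (x y z : Fin n) : Prop :=
  ({x, y, z} : Finset (Fin n)) ∈ T ∧ ¬ (c x = c y ∧ c x = c z) ∧ ¬ Che T c x y z ∧
    ¬ Che T c y x z ∧ ¬ Che T c z x y

/-- the number of these triples, ordered -/
noncomputable def extS (T : Finset (Finset (Fin n))) (c : Fin n → Fin r) : ℝ :=
  ∑ x : Fin n, ∑ y : Fin n, ∑ z : Fin n, ind (Ext T c x y z)

theorem general (hT : Cov T) (c : Fin n → Fin r) :
    3 * ∑ v, (deg T c v ^ 2 - deg T c v) - 3 * (r : ℝ) * (n : ℝ) ^ 2 +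
      ∑ i, (size c i ^ 3 - 3 * size c i ^ 2 + 2 * size c i - miss T c i) + extS T c ≤
      6 * (T.card : ℝ) := by
  obtain ⟨SA, hSA⟩ : ∃ SA, SA = ∑ v : Fin n, ∑ a : Fin n, ∑ b : Fin n, ind (Che T c v a b) :=
    ⟨_, rfl⟩
  have hA : ∑ v, (deg T c v ^ 2 - deg T c v) - (r : ℝ) * (n : ℝ) ^ 2 ≤ SA := by
    have h1 := missing_le (c := c) hT
    rw [← cherries T c]
    have h2 : ∑ v : Fin n, ∑ a : Fin n, ∑ b : Fin n, ind (arc T c v a ∧ arc T c v b ∧ a ≠ b) =
        SA + ∑ v : Fin n, ∑ a : Fin n, ∑ b : Fin n,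
        ind (arc T c v a ∧ arc T c v b ∧ a ≠ b ∧ ({v, a, b} : Finset (Fin n)) ∉ T) := by
      rw [hSA, ← sum_add_distrib]
      refine sum_congr rfl fun v _ => ?_
      rw [← sum_add_distrib]
      refine sum_congr rfl fun a _ => ?_
      rw [← sum_add_distrib]
      refine sum_congr rfl fun b _ => ?_
      unfold Che ind
      by_cases h3 : arc T c v a ∧ arc T c v b ∧ a ≠ b
      · by_cases h4 : ({v, a, b} : Finset (Fin n)) ∈ T
        · rw [if_pos h3, if_pos ⟨h3.1, h3.2.1, h3.2.2, h4⟩, if_neg (fun h => h.2.2.2 h4)]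
          norm_num
        · rw [if_pos h3, if_neg (fun h => h4 h.2.2.2), if_pos ⟨h3.1, h3.2.1, h3.2.2, h4⟩]
          norm_num
      · rw [if_neg h3, if_neg (fun h => h3 ⟨h.1, h.2.1, h.2.2.1⟩),
          if_neg (fun h => h3 ⟨h.1, h.2.1, h.2.2.1⟩)]
        norm_num
    rw [h2]
    linarith
  obtain ⟨B, hB⟩ : ∃ B : Fin r → Fin n → Fin n → Fin n → Prop, B = fun i x y z =>
    c x = i ∧ c y = i ∧ c z = i ∧ x ≠ y ∧ x ≠ z ∧ y ≠ z ∧ ({x, y, z} : Finset (Fin n)) ∈ T :=
    ⟨_, rfl⟩
  have hpt : ∀ x y z : Fin n, ind (Che T c x y z) + ind (Che T c y x z) + ind (Che T c z x y) +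
      ∑ i, ind (B i x y z) + ind (Ext T c x y z) ≤ ind (({x, y, z} : Finset (Fin n)) ∈ T) := by
    intro x y z
    have hyxz : ({y, x, z} : Finset (Fin n)) = {x, y, z} := by
      ext w; simp only [mem_insert, mem_singleton]; tauto
    have hzxy : ({z, x, y} : Finset (Fin n)) = {x, y, z} := by
      ext w; simp only [mem_insert, mem_singleton]; tauto
    by_cases hm : ({x, y, z} : Finset (Fin n)) ∈ T
    swap
    · rw [ind_false hm]
      have h1 : ind (Che T c x y z) = 0 := ind_false fun h => hm h.2.2.2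
      have h2 : ind (Che T c y x z) = 0 := ind_false fun h => hm (hyxz ▸ h.2.2.2)
      have h3 : ind (Che T c z x y) = 0 := ind_false fun h => hm (hzxy ▸ h.2.2.2)
      have h4 : ∑ i, ind (B i x y z) = 0 := sum_eq_zero fun i _ => ind_false fun h => by
        rw [hB] at h; exact hm h.2.2.2.2.2.2
      have h5 : ind (Ext T c x y z) = 0 := ind_false fun h => hm h.1
      rw [h1, h2, h3, h4, h5]
      norm_num
    rw [ind_true hm]
    have hBs : ∑ i, ind (B i x y z) ≤ ind (c x = c y ∧ c x = c z) := by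
      calc ∑ i, ind (B i x y z) ≤ ∑ i, ind (c x = i) * ind (c x = c y ∧ c x = c z) := by
            refine sum_le_sum fun i _ => ?_
            by_cases h : B i x y z
            · have h' := h
              rw [hB] at h'
              rw [ind_true h, ind_true h'.1,
                ind_true ⟨h'.1.trans h'.2.1.symm, h'.1.trans h'.2.2.1.symm⟩]
              norm_num
            · rw [ind_false h]
              exact mul_nonneg (ind_nonneg _) (ind_nonneg _)
        _ = ind (c x = c y ∧ c x = c z) := by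
            rw [← sum_mul]
            have : ∑ i, ind (c x = i) = 1 := by
              rw [sum_eq_single (c x)]
              · exact ind_true rfl
              · intro i _ hi
                exact ind_false (Ne.symm hi)
              · simp
            rw [this, one_mul]
    by_cases h1 : Che T c x y z
    · have h2 : ¬ Che T c y x z := fun h => arc_asymm h1.1 h.1
      have h3 : ¬ Che T c z x y := fun h => arc_asymm h1.2.1 h.1
      have h4 : ¬ (c x = c y ∧ c x = c z) := fun h => h1.1.1 h.1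
      have h5 : ¬ Ext T c x y z := fun h => h.2.2.1 h1
      rw [ind_false h4] at hBs
      rw [ind_true h1, ind_false h2, ind_false h3, ind_false h5]
      linarith
    by_cases h2 : Che T c y x z
    · have h3 : ¬ Che T c z x y := fun h => arc_asymm h2.2.1 h.2.1
      have h4 : ¬ (c x = c y ∧ c x = c z) := fun h => h2.1.1 h.1.symm
      have h5 : ¬ Ext T c x y z := fun h => h.2.2.2.1 h2
      rw [ind_false h4] at hBs
      rw [ind_false h1, ind_true h2, ind_false h3, ind_false h5]
      linarith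
    by_cases h3 : Che T c z x y
    · have h4 : ¬ (c x = c y ∧ c x = c z) := fun h => h3.1.1 h.2.symm
      have h5 : ¬ Ext T c x y z := fun h => h.2.2.2.2 h3
      rw [ind_false h4] at hBs
      rw [ind_false h1, ind_false h2, ind_true h3, ind_false h5]
      linarith
    rw [ind_false h1, ind_false h2, ind_false h3]
    by_cases h4 : c x = c y ∧ c x = c z
    · have h5 : ¬ Ext T c x y z := fun h => h.2.1 h4
      rw [ind_true h4] at hBs
      rw [ind_false h5]
      linarith
    · rw [ind_false h4] at hBs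
      have := ind_le_one (Ext T c x y z)
      linarith
  have htot : 3 * SA + ∑ i, (size c i ^ 3 - 3 * size c i ^ 2 + 2 * size c i - miss T c i) +
      extS T c ≤ ∑ x : Fin n, ∑ y : Fin n, ∑ z : Fin n, ind (({x, y, z} : Finset (Fin n)) ∈ T) := by
    have e1 : ∑ x : Fin n, ∑ y : Fin n, ∑ z : Fin n, ind (Che T c y x z) = SA := by
      rw [hSA, sum_comm]
    have e2 : ∑ x : Fin n, ∑ y : Fin n, ∑ z : Fin n, ind (Che T c z x y) = SA := by
      rw [hSA]
      have : ∀ x : Fin n, ∑ y : Fin n, ∑ z : Fin n, ind (Che T c z x y) =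
          ∑ z : Fin n, ∑ y : Fin n, ind (Che T c z x y) := fun x => sum_comm
      rw [sum_congr rfl fun x _ => this x, sum_comm]
    have e3 : ∑ i, (size c i ^ 3 - 3 * size c i ^ 2 + 2 * size c i - miss T c i) =
        ∑ x : Fin n, ∑ y : Fin n, ∑ z : Fin n, ∑ i, ind (B i x y z) := by
      have : ∀ i, size c i ^ 3 - 3 * size c i ^ 2 + 2 * size c i - miss T c i =
          ∑ x : Fin n, ∑ y : Fin n, ∑ z : Fin n, ind (B i x y z) := by
        intro i
        rw [← inside T c i, hB]
      rw [sum_congr rfl fun i _ => this i, sum_comm]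
      refine sum_congr rfl fun x _ => ?_
      rw [sum_comm]
      refine sum_congr rfl fun y _ => ?_
      rw [sum_comm]
    have e5 : ∑ x : Fin n, ∑ y : Fin n, ∑ z : Fin n, ind (Ext T c x y z) = extS T c := rfl
    have e4 : ∑ x : Fin n, ∑ y : Fin n, ∑ z : Fin n, (ind (Che T c x y z) + ind (Che T c y x z) +
        ind (Che T c z x y) + ∑ i, ind (B i x y z) + ind (Ext T c x y z)) = 3 * SA +
        ∑ i, (size c i ^ 3 - 3 * size c i ^ 2 + 2 * size c i - miss T c i) + extS T c := by
      simp only [sum_add_distrib]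
      rw [e1, e2, e3, e5, ← hSA]
      ring
    rw [← e4]
    exact sum_le_sum fun x _ => sum_le_sum fun y _ => sum_le_sum fun z _ => hpt x y z
  have h6 := six_card_ge hT
  linarith

/-- the ordered pairs which are two-way -/
noncomputable def badO (T : Finset (Finset (Fin n))) (c : Fin n → Fin r) : ℝ :=
  ∑ x : Fin n, ∑ y : Fin n, ind (c x ≠ c y ∧ Mate T c x y ∧ Mate T c y x)

theorem sum_deg (T : Finset (Finset (Fin n))) (c : Fin n → Fin r) :
    2 * ∑ v, deg T c v = (n : ℝ) ^ 2 - ∑ i, size c i ^ 2 - badO T c := by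
  have h1 : ∀ x y : Fin n, ind (arc T c x y) + ind (arc T c y x) =
      1 - ∑ i, ind (c x = i) * ind (c y = i) - ind (c x ≠ c y ∧ Mate T c x y ∧ Mate T c y x) := by
    intro x y
    have h2 : ∑ i, ind (c x = i) * ind (c y = i) = ind (c x = c y) := by
      rw [sum_eq_single (c x)]
      · rw [ind_true rfl, one_mul]
        exact ind_congr eq_comm
      · intro i _ hi
        rw [ind_false (Ne.symm hi), zero_mul]
      · simp
    rw [h2]
    by_cases hc : c x = c y
    · have h3 : ¬ arc T c x y := fun h => h.1 hc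
      have h4 : ¬ arc T c y x := fun h => h.1 hc.symm
      rw [ind_false h3, ind_false h4, ind_true hc, ind_false fun h => h.1 hc]
      norm_num
    · by_cases hb : Mate T c x y ∧ Mate T c y x
      · have h3 : ¬ arc T c x y := fun h => h.2.1 hb.1
        have h4 : ¬ arc T c y x := fun h => h.2.1 hb.2
        rw [ind_false h3, ind_false h4, ind_false hc, ind_true ⟨hc, hb.1, hb.2⟩]
        norm_num
      · have h5 : ind (c x ≠ c y ∧ Mate T c x y ∧ Mate T c y x) = 0 := ind_false fun h => hb h.2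
        rw [h5, ind_false hc]
        rcases arc_or hc hb with h | h
        · rw [ind_true h, ind_false (arc_asymm h)]; norm_num
        · rw [ind_true h, ind_false (arc_asymm h)]; norm_num
  have h2 : ∑ x : Fin n, ∑ y : Fin n, (ind (arc T c x y) + ind (arc T c y x)) =
      2 * ∑ v, deg T c v := by
    simp only [sum_add_distrib]
    have e1 : ∑ x : Fin n, ∑ y : Fin n, ind (arc T c y x) = ∑ v, deg T c v := by
      rw [sum_comm]
      rfl
    have e2 : ∑ x : Fin n, ∑ y : Fin n, ind (arc T c x y) = ∑ v, deg T c v := rfl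
    rw [e1, e2]
    ring
  rw [← h2, sum_congr rfl fun x _ => sum_congr rfl fun y _ => h1 x y]
  simp only [sum_sub_distrib]
  congr 1
  congr 1
  · simp
    ring
  · have : ∀ i, size c i ^ 2 = ∑ x : Fin n, ∑ y : Fin n, ind (c x = i) * ind (c y = i) := by
      intro i
      unfold size
      rw [sq, sum_mul_sum]
    have e : ∑ i, size c i ^ 2 = ∑ x : Fin n, ∑ y : Fin n, ∑ i, ind (c x = i) * ind (c y = i) := by
      rw [sum_congr rfl fun i _ => this i, sum_comm]
      refine sum_congr rfl fun x _ => ?_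
      rw [sum_comm]
    rw [e]

/-- the sum of the squared deviations of the degrees of a class -/
noncomputable def dev (T : Finset (Finset (Fin n))) (c : Fin n → Fin r) (i : Fin r) : ℝ :=
  ∑ x, ind (c x = i) * ((n : ℝ) / 3 - deg T c x) ^ 2

theorem dev_nonneg (i : Fin r) : 0 ≤ dev T c i :=
  sum_nonneg fun _ _ => mul_nonneg (ind_nonneg _) (sq_nonneg _)

theorem sum_dev (T : Finset (Finset (Fin n))) (c : Fin n → Fin r) :
    ∑ i, dev T c i = (n : ℝ) ^ 3 / 9 - 2 / 3 * n * ∑ v, deg T c v + ∑ v, deg T c v ^ 2 := by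
  unfold dev
  rw [sum_comm]
  have h1 : ∀ x : Fin n, ∑ i, ind (c x = i) * ((n : ℝ) / 3 - deg T c x) ^ 2 =
      (n : ℝ) ^ 2 / 9 - 2 / 3 * n * deg T c x + deg T c x ^ 2 := by
    intro x
    rw [← sum_mul]
    have : ∑ i, ind (c x = i) = 1 := by
      rw [sum_eq_single (c x)]
      · exact ind_true rfl
      · intro i _ hi
        exact ind_false (Ne.symm hi)
      · simp
    rw [this, one_mul]
    ring
  rw [sum_congr rfl fun x _ => h1 x, sum_add_distrib, sum_sub_distrib, ← mul_sum]
  simp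
  ring

theorem sum_size_sq_le (c : Fin n → Fin r) : ∑ i, size c i ^ 2 ≤ (n : ℝ) ^ 2 := by
  have h1 := sum_size (c := c)
  rw [← h1, sq, sum_mul]
  refine sum_le_sum fun i _ => ?_
  rw [sq]
  apply mul_le_mul_of_nonneg_left _ (size_nonneg i)
  exact single_le_sum (f := fun i => size c i) (fun i _ => size_nonneg i) (mem_univ i)

/-- the general inequality in terms of the sizes of the classes, the deviations of the degrees and
the missing triples inside the classes -/
theorem general2 (hT : Cov T) (c : Fin n → Fin r) :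
    4 * (n : ℝ) ^ 3 / 9 + ∑ i, size c i * (size c i - n / 3) * (size c i - 2 * n / 3) +
      ∑ i, (3 * dev T c i - miss T c i) - n * badO T c + extS T c -
      3 * ((r : ℝ) + 1) * (n : ℝ) ^ 2 ≤
      6 * (T.card : ℝ) := by
  have h1 := general hT c
  have h2 := sum_deg T c
  have h3 := sum_dev T c
  have h4 := sum_size (c := c)
  have h5 := sum_size_sq_le c
  have hb : 0 ≤ badO T c := sum_nonneg fun _ _ => sum_nonneg fun _ _ => ind_nonneg _
  obtain ⟨S2, hS2⟩ : ∃ S2, S2 = ∑ i, size c i ^ 2 := ⟨_, rfl⟩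
  obtain ⟨S3, hS3⟩ : ∃ S3, S3 = ∑ i, size c i ^ 3 := ⟨_, rfl⟩
  obtain ⟨M, hM⟩ : ∃ M, M = ∑ i, miss T c i := ⟨_, rfl⟩
  obtain ⟨Dv, hDv⟩ : ∃ Dv, Dv = ∑ i, dev T c i := ⟨_, rfl⟩
  obtain ⟨D1, hD1⟩ : ∃ D1, D1 = ∑ v, deg T c v := ⟨_, rfl⟩
  obtain ⟨D2, hD2⟩ : ∃ D2, D2 = ∑ v, deg T c v ^ 2 := ⟨_, rfl⟩
  have e1 : ∑ i, (size c i ^ 3 - 3 * size c i ^ 2 + 2 * size c i - miss T c i) =
      S3 - 3 * S2 + 2 * n - M := by
    rw [sum_sub_distrib, sum_add_distrib, sum_sub_distrib, ← mul_sum, ← mul_sum, h4, hS3, hS2, hM]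
  have e2 : ∑ i, size c i * (size c i - n / 3) * (size c i - 2 * n / 3) =
      S3 - n * S2 + 2 / 9 * (n : ℝ) ^ 3 := by
    have : ∀ i, size c i * (size c i - n / 3) * (size c i - 2 * n / 3) =
        size c i ^ 3 - n * size c i ^ 2 + 2 / 9 * (n : ℝ) ^ 2 * size c i := fun i => by ring
    rw [sum_congr rfl fun i _ => this i, sum_add_distrib, sum_sub_distrib, ← mul_sum, ← mul_sum,
      h4, hS3, hS2]
    ring
  have e3 : ∑ i, (3 * dev T c i - miss T c i) = 3 * Dv - M := by
    rw [sum_sub_distrib, ← mul_sum, hDv, hM]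
  have e4 : ∑ v, (deg T c v ^ 2 - deg T c v) = D2 - D1 := by
    rw [sum_sub_distrib, hD1, hD2]
  rw [e1, e4] at h1
  rw [e2, e3]
  rw [← hS2, ← hD1] at h2
  rw [← hDv, ← hD1, ← hD2] at h3
  rw [← hS2] at h5
  have h7 : (n : ℝ) * (2 * D1) = n * ((n : ℝ) ^ 2 - S2 - badO T c) := by rw [h2]
  have h8 : (0 : ℝ) ≤ n := Nat.cast_nonneg n
  nlinarith

theorem extS_nonneg (T : Finset (Finset (Fin n))) (c : Fin n → Fin r) : 0 ≤ extS T c :=
  sum_nonneg fun _ _ => sum_nonneg fun _ _ => sum_nonneg fun _ _ => ind_nonneg _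

theorem miss_nonneg (T : Finset (Finset (Fin n))) (c : Fin n → Fin r) (i : Fin r) :
    0 ≤ miss T c i :=
  sum_nonneg fun _ _ => sum_nonneg fun _ _ => sum_nonneg fun _ _ => ind_nonneg _

end Pool.Agent.Zk14.OW
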