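import Mathlib

/-!
# A Motzkin–Straus inequality for triangles with vertex weights

Let `adj` be a graph on a finite set, `x ≥ 0` vertex weights with sum at most one over every
clique, and `p` a probability distribution on the vertices. The probability that three random
vertices form a triangle is at most `3 E (1 - 2 x) ^ 2`.
-/

set_option autoImplicit false
open Finset

namespace Pool.Agent.Zk14.OW

theorem theta {r X : ℝ} (_hr : 0 < r) (hr1 : r < 1) (hX : 0 ≤ X) (hX1 : X ≤ 1) :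
    0 ≤ 10 * r ^ 2 - r * (9 - 5 * r) * X + (1 - r) * (3 - 2 * r) * X ^ 2 := by
  rcases le_total r (2 / 5) with h | h
  · -- the discriminant is negative
    have h1 : 0 < (1 - r) * (3 - 2 * r) := mul_pos (by linarith) (by linarith)
    have h2 : 0 ≤ 39 - 110 * r + 55 * r ^ 2 := by nlinarith
    have h3 : 4 * ((1 - r) * (3 - 2 * r)) * (10 * r ^ 2 - r * (9 - 5 * r) * X +
        (1 - r) * (3 - 2 * r) * X ^ 2) = (2 * ((1 - r) * (3 - 2 * r)) * X - r * (9 - 5 * r)) ^ 2 +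
        r ^ 2 * (39 - 110 * r + 55 * r ^ 2) := by ring
    have h4 : 0 ≤ 4 * ((1 - r) * (3 - 2 * r)) * (10 * r ^ 2 - r * (9 - 5 * r) * X +
        (1 - r) * (3 - 2 * r) * X ^ 2) := by
      rw [h3]
      positivity
    by_contra h5
    push Not at h5
    have : 4 * ((1 - r) * (3 - 2 * r)) * (10 * r ^ 2 - r * (9 - 5 * r) * X +
        (1 - r) * (3 - 2 * r) * X ^ 2) < 0 := mul_neg_of_pos_of_neg (by positivity) h5
    linarith
  · have h1 : 10 * r ^ 2 - r * (9 - 5 * r) * X + (1 - r) * (3 - 2 * r) * X ^ 2 =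
        10 * r ^ 2 * (1 - X) ^ 2 + 2 * (25 / 2 * r ^ 2 - 9 / 2 * r) * (X * (1 - X)) +
        (17 * r ^ 2 - 14 * r + 3) * X ^ 2 := by ring
    rw [h1]
    have h2 : 0 ≤ 25 / 2 * r ^ 2 - 9 / 2 * r := by nlinarith
    have h3 : 0 ≤ 17 * r ^ 2 - 14 * r + 3 := by nlinarith [sq_nonneg (17 * r - 7)]
    have h4 : 0 ≤ X * (1 - X) := mul_nonneg hX (by linarith)
    positivity

/-- the final numerical inequality -/
theorem numeric {p1 p2 r m A q2 q3 G : ℝ} (hm : 0 < m) (hm1 : m ≤ p1) (hm2 : m ≤ p2)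
    (hmr : m ≤ r) (hs : p1 + p2 + r = 1) (hA : A = m ^ 2 / p1 + m ^ 2 / p2)
    (hq2 : m ^ 2 ≤ q2) (hq3 : q3 ≤ r * q2) (hG : r ^ 2 ≤ G * (r + A)) :
    1 - 3 * (p1 ^ 2 + p2 ^ 2 + q2) + 2 * (p1 ^ 3 + p2 ^ 3 + q3) ≤ 5 / 2 * G := by
  have hp1 : 0 < p1 := by linarith
  have hp2 : 0 < p2 := by linarith
  have hr : 0 < r := by linarith
  have hr1 : r < 1 := by linarith
  obtain ⟨P, hP⟩ : ∃ P, P = p1 * p2 := ⟨_, rfl⟩
  have hP0 : 0 < P := by rw [hP]; positivity
  have hσ : p1 + p2 = 1 - r := by linarith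
  have hAe : A * P = m ^ 2 * (1 - r) := by
    rw [hA, hP, ← hσ]
    field_simp
    ring
  have hA0 : 0 < A := by
    rw [hA]; positivity
  have hPi : P ≤ (1 - r) ^ 2 / 4 := by
    rw [hP, ← hσ]
    nlinarith [sq_nonneg (p1 - p2)]
  obtain ⟨M, hM⟩ : ∃ M, M = m ^ 2 := ⟨_, rfl⟩
  have hM0 : 0 < M := by rw [hM]; positivity
  have hMr : M ≤ r ^ 2 := by rw [hM]; nlinarith
  have hMP : M ≤ P := by rw [hM, hP]; nlinarith
  rw [← hM] at hAe hq2
  have hA1 : A ≤ 1 - r := by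
    by_contra h
    push Not at h
    nlinarith
  have hMP2 : M * (1 - 2 * r) ≤ P * r := by
    have h1 : m * (1 - r) - M ≤ P := by
      rw [hM, hP]
      nlinarith [mul_nonneg (sub_nonneg.2 hm1) (sub_nonneg.2 hm2)]
    have h2 : m * (1 - 2 * r) ≤ r * (1 - r - m) := by
      nlinarith [mul_nonneg (by linarith : (0 : ℝ) ≤ 1 - r) (sub_nonneg.2 hmr)]
    have h3 : M * (1 - 2 * r) ≤ m * (r * (1 - r - m)) := by
      rw [hM]
      nlinarith
    have h4 : m * (r * (1 - r - m)) = r * (m * (1 - r) - M) := by rw [hM]; ring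
    nlinarith
  have hA2 : A * (1 - 2 * r) ≤ (1 - r) * r := by
    by_contra h
    push Not at h
    have h1 : (1 - r) * r * P < A * (1 - 2 * r) * P := mul_lt_mul_of_pos_right h hP0
    have h2 : A * (1 - 2 * r) * P = M * (1 - 2 * r) * (1 - r) := by
      calc A * (1 - 2 * r) * P = (A * P) * (1 - 2 * r) := by ring
        _ = _ := by rw [hAe]; ring
    have h3 : M * (1 - 2 * r) * (1 - r) ≤ P * r * (1 - r) :=
      mul_le_mul_of_nonneg_right hMP2 (by linarith)
    nlinarith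
  obtain ⟨X, hX⟩ : ∃ X, X = r + A := ⟨_, rfl⟩
  have hX0 : 0 < X := by rw [hX]; positivity
  have hX1 : X ≤ 1 := by rw [hX]; linarith
  obtain ⟨E, hE⟩ : ∃ E, E = 6 * P * r + (3 - 2 * r) * (r ^ 2 - M) := ⟨_, rfl⟩
  have hE1 : 1 - 3 * (p1 ^ 2 + p2 ^ 2 + q2) + 2 * (p1 ^ 3 + p2 ^ 3 + q3) ≤ E := by
    have h1 : 1 - 3 * (p1 ^ 2 + p2 ^ 2) + 2 * (p1 ^ 3 + p2 ^ 3) =
        6 * P * r + r ^ 2 * (3 - 2 * r) := by
      have : r = 1 - p1 - p2 := by linarith
      rw [hP, this]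
      ring
    have h2 : (3 - 2 * r) * M ≤ (3 - 2 * r) * q2 :=
      mul_le_mul_of_nonneg_left hq2 (by linarith)
    rw [hE]
    nlinarith
  -- the two end points
  have h0 : 0 ≤ 5 / 2 - (3 - 2 * r) * X := by
    rcases le_total (1 / 4) r with hr3 | hr3
    · have h1 : (3 - 2 * r) * X ≤ (3 - 2 * r) * 1 :=
        mul_le_mul_of_nonneg_left hX1 (by linarith)
      linarith
    · have h12 : 0 < 1 - 2 * r := by linarith
      have hX2 : X * (1 - 2 * r) ≤ r * (2 - 3 * r) := by rw [hX]; nlinarith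
      have h1 : (3 - 2 * r) * (X * (1 - 2 * r)) ≤ (3 - 2 * r) * (r * (2 - 3 * r)) :=
        mul_le_mul_of_nonneg_left hX2 (by linarith)
      have h2 : (3 - 2 * r) * (r * (2 - 3 * r)) ≤ 5 / 2 * (1 - 2 * r) := by
        have e : 5 / 2 * (1 - 2 * r) - (3 - 2 * r) * (r * (2 - 3 * r)) =
            5 / 2 - 11 * r + 13 * r ^ 2 - 6 * r ^ 3 := by ring
        have h3 : 0 ≤ 5 / 2 - 11 * r + 13 * r ^ 2 - 6 * r ^ 3 := by
          have h4 : 0 ≤ r ^ 2 * (1 / 4 - r) := mul_nonneg (sq_nonneg r) (by linarith)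
          nlinarith
        linarith
      have h3 : (3 - 2 * r) * X * (1 - 2 * r) ≤ 5 / 2 * (1 - 2 * r) := by linarith
      have := le_of_mul_le_mul_right h3 h12
      linarith
  have h1 := theta hr hr1 hX0.le hX1
  have key : E * X ≤ 5 / 2 * r ^ 2 := by
    obtain ⟨D, hD⟩ : ∃ D, D = (1 - r) ^ 2 / 4 := ⟨_, rfl⟩
    have hD0 : 0 < D := by rw [hD]; have : 0 < 1 - r := by linarith
                           positivity
    have h1r : 0 < 1 - r := by linarith
    -- the difference, times `(1 - r)`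
    obtain ⟨Ψ, hΨ⟩ : ∃ Ψ, Ψ = (5 / 2 * r ^ 2 - E * X) * (1 - r) := ⟨_, rfl⟩
    have hAX : A = X - r := by rw [hX]; ring
    have e1 : Ψ = r ^ 2 * (1 - r) * (5 / 2 - (3 - 2 * r) * X) -
        P * X * (6 * r * (1 - r) - (3 - 2 * r) * (X - r)) := by
      have e2 : E * (1 - r) = 6 * P * r * (1 - r) + (3 - 2 * r) * (r ^ 2 * (1 - r) - A * P) := by
        rw [hE, hAe]; ring
      rw [hΨ]
      calc (5 / 2 * r ^ 2 - E * X) * (1 - r) = 5 / 2 * r ^ 2 * (1 - r) - X * (E * (1 - r)) := by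
            ring
        _ = _ := by rw [e2, hAX]; ring
    have e2 : D * Ψ = (D - P) * (r ^ 2 * (1 - r) * (5 / 2 - (3 - 2 * r) * X)) +
        P * ((1 - r) / 4 * (10 * r ^ 2 - r * (9 - 5 * r) * X +
        (1 - r) * (3 - 2 * r) * X ^ 2)) := by
      rw [e1, hD]
      ring
    have h2 : 0 ≤ D * Ψ := by
      rw [e2]
      have h3 : 0 ≤ D - P := by rw [hD]; linarith
      positivity
    have h3 : 0 ≤ Ψ := by
      by_contra h
      push Not at h
      have := mul_neg_of_pos_of_neg hD0 h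
      linarith
    rw [hΨ] at h3
    by_contra h
    push Not at h
    have : (5 / 2 * r ^ 2 - E * X) * (1 - r) < 0 :=
      mul_neg_of_neg_of_pos (by linarith) h1r
    linarith
  have h7 : E * X ≤ 5 / 2 * G * X := by
    rw [← hX] at hG
    linarith
  exact hE1.trans (le_of_mul_le_mul_right h7 hX0)

end Pool.Agent.Zk14.OW
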